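import Pool.Agent.Helper30.THD.Defs

/-!
# Project THD: every infinite closed subset of the curve contains the point

`V = {w j = 0}` is a closed set of dimension at most one without common zeros of `l 0`, `l 1`,
which is mapped by `(l 0 : l 1 : l 2)` into the irreducible plane curve `{g = 0}`, and `p ∈ V` is
the only point over its image. Then every infinite closed subset `T` of `V` contains `p`.

Proof: (a) by `noz` and the Nullstellensatz `X_i ^ r ∈ (T, l 0, l 1)`, so `R = ℂ[X] / (T)` is
integral over `ℂ[Y_0, Y_1, Y_2]`, `Y_i ↦ l i` (see the proofs of `RED.krull_le_two`, `THC.Meet`).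
(b) The images of the points `y n` contain infinitely many different points of the plane: else
infinitely many `y n` have the same image; the closed set given by `T` and the forms
`l i * C c' - l i' * C c` for this image `c` is infinite, so by `THC.exists_zero_of_infinite` it
contains a zero of `l 0` or `l 1` (the one with `c ≠ 0`), and there all `l i` vanish:
contradiction. (c) If `h` is a polynomial with `h(l) = 0` on the cone of `T`, so is every
homogeneous component; by (b) and `TP.finite_common_zeros` it is divisible by `g`, so it vanishes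
at `(l i (p))`. (d) So the kernel of `ℂ[Y] → R` is in the maximal ideal of `(l i (p))`; by
`Ideal.exists_ideal_over_maximal_of_isIntegral` and the Nullstellensatz there is `x` with `T(x) = 0`
and `l i (x) = l i (p)`; `x ≠ 0`, and `sep` gives `p = c x`.
-/

set_option autoImplicit false

namespace Pool.Agent.Helper30.THD

open MvPolynomial
open Pool.Agent.Helper38.TQ (PEq)

variable {ν : ℕ}

theorem NoFac.irreducible {L : Type} [Field L] {m : ℕ} {g : MvPolynomial (Fin 3) L}
    (hg : NoFac m g) : Irreducible g := by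
  constructor
  · intro hu
    obtain ⟨c, _, hc⟩ := MvPolynomial.isUnit_iff_eq_C_of_isReduced.1 hu
    have h1 : g.IsHomogeneous 0 := by
      rw [hc]
      exact isHomogeneous_C _ _
    have h2 := h1.inj_right hg.hom hg.ne
    have := hg.pos
    omega
  · intro a b hab
    obtain ⟨i, j, ha, hb, hij⟩ := Pool.Agent.Helper50.N2.form_of_mul hg.hom hg.ne hab
    have key : ∀ c : MvPolynomial (Fin 3) L, c ≠ 0 → c.IsHomogeneous 0 → IsUnit c := by
      intro c hc0 hc
      have h1 : c.totalDegree = 0 := Nat.le_zero.1 hc.totalDegree_le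
      have h2 := totalDegree_eq_zero_iff_eq_C.1 h1
      rw [h2]
      refine IsUnit.map C (IsUnit.mk0 _ ?_)
      intro h3
      rw [h3, C_0] at h2
      exact hc0 h2
    have ha0 : a ≠ 0 := by
      rintro rfl
      exact hg.ne (by rw [hab, zero_mul])
    have hb0 : b ≠ 0 := by
      rintro rfl
      exact hg.ne (by rw [hab, mul_zero])
    by_cases hi : i = 0
    · rw [hi] at ha
      exact Or.inl (key a ha0 ha)
    · by_cases hj : j = 0
      · rw [hj] at hb
        exact Or.inr (key b hb0 hb)
      · exact absurd hab.symm (hg.fac i j a b hij (by omega) (by omega) ha hb)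

/-- The algebra generated by the small monomials is finite over the polynomials in `l 0, l 1`. -/
theorem over_finite {K : Type} [Field K] {N : ℕ} (J : Ideal (MvPolynomial (Fin N) K))
    (l : Fin 3 → MvPolynomial (Fin N) K) (r : ℕ) (hr : 0 < r)
    (h : ∀ i : Fin N, ∃ v w : MvPolynomial (Fin N) K, v.totalDegree < r ∧ w.totalDegree < r ∧
      X i ^ r - (v * l 0 + w * l 1) ∈ J) :
    (aeval (fun i => Ideal.Quotient.mk J (l i)) :
      MvPolynomial (Fin 3) K →ₐ[K] (MvPolynomial (Fin N) K ⧸ J)).toRingHom.IsIntegral := by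
  classical
  let φ : MvPolynomial (Fin 3) K →ₐ[K] (MvPolynomial (Fin N) K ⧸ J) :=
    aeval (fun i => Ideal.Quotient.mk J (l i))
  let _ : Algebra (MvPolynomial (Fin 3) K) (MvPolynomial (Fin N) K ⧸ J) := φ.toRingHom.toAlgebra
  let _ : Module (MvPolynomial (Fin 3) K) (MvPolynomial (Fin N) K ⧸ J) := Algebra.toModule
  have hmap : ∀ q : MvPolynomial (Fin 3) K,
      algebraMap (MvPolynomial (Fin 3) K) (MvPolynomial (Fin N) K ⧸ J) q = φ q :=
    fun _ => rfl
  let T : Set (Fin N →₀ ℕ) := Set.Iic (Finsupp.equivFunOnFinite.symm fun _ => r)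
  have hT : T.Finite := Set.finite_Iic _
  let W : Submodule (MvPolynomial (Fin 3) K) (MvPolynomial (Fin N) K ⧸ J) :=
    Submodule.span (MvPolynomial (Fin 3) K) ((fun s => Ideal.Quotient.mk J (monomial s 1)) '' T)
  have hsmul : ∀ (a : K) (w : MvPolynomial (Fin N) K), Ideal.Quotient.mk J w ∈ W →
      Ideal.Quotient.mk J (C a * w) ∈ W := by
    intro a w hw
    have h1 : Ideal.Quotient.mk J (C a * w) = (C a : MvPolynomial (Fin 3) K) •
        Ideal.Quotient.mk J w := by
      rw [Algebra.smul_def, hmap, map_mul]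
      congr 1
      simp only [φ, aeval_C]
      rfl
    rw [h1]
    exact W.smul_mem _ hw
  have hlmul0 : ∀ (i : Fin 3) (w : MvPolynomial (Fin N) K), Ideal.Quotient.mk J w ∈ W →
      Ideal.Quotient.mk J (w * l i) ∈ W := by
    intro i w hw
    have h1 : Ideal.Quotient.mk J (w * l i) = (X i : MvPolynomial (Fin 3) K) •
        Ideal.Quotient.mk J w := by
      rw [Algebra.smul_def, hmap, map_mul, mul_comm]
      congr 1
      simp [φ, aeval_X]
    rw [h1]
    exact W.smul_mem _ hw
  have hmain : ∀ n : ℕ, ∀ p : MvPolynomial (Fin N) K, p.totalDegree ≤ n →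
      Ideal.Quotient.mk J p ∈ W := by
    intro n
    induction n using Nat.strong_induction_on with
    | _ n ih =>
      intro p hp
      have h1 : p = ∑ s ∈ p.support, C (p.coeff s) * monomial s 1 := by
        conv_lhs => rw [p.as_sum]
        apply Finset.sum_congr rfl
        intro s _
        rw [C_mul_monomial, mul_one]
      rw [h1, map_sum]
      apply W.sum_mem
      intro s hs
      apply hsmul
      have hsd : (s.sum fun _ e => e) ≤ n := le_trans (le_totalDegree hs) hp
      by_cases hsT : s ∈ T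
      · exact Submodule.subset_span ⟨s, hsT, rfl⟩
      · have h2 : ∃ i, r < s i := by
          by_contra hcon
          push Not at hcon
          exact hsT (fun i => hcon i)
        obtain ⟨i, hi⟩ := h2
        obtain ⟨v, w, hv, hw, huv⟩ := h i
        let s' : Fin N →₀ ℕ := s - Finsupp.single i r
        have hs' : s = s' + Finsupp.single i r := by
          refine (tsub_add_cancel_of_le ?_).symm
          rw [Finsupp.single_le_iff]
          exact hi.le
        have hdeg : (s.sum fun _ e => e) = (s'.sum fun _ e => e) + r := by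
          conv_lhs => rw [hs']
          rw [Finsupp.sum_add_index' (fun _ => rfl) (fun _ _ _ => rfl),
            Finsupp.sum_single_index rfl]
        have hm : (monomial s (1 : K)) = monomial s' 1 * X i ^ r := by
          conv_lhs => rw [hs']
          rw [X_pow_eq_monomial, monomial_mul, one_mul]
        have hm2 : Ideal.Quotient.mk J (monomial s (1 : K)) =
            Ideal.Quotient.mk J (monomial s' 1 * v * l 0) +
              Ideal.Quotient.mk J (monomial s' 1 * w * l 1) := by
          rw [← map_add, hm, Ideal.Quotient.eq]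
          have : monomial s' 1 * X i ^ r - (monomial s' 1 * v * l 0 + monomial s' 1 * w * l 1) =
              monomial s' 1 * (X i ^ r - (v * l 0 + w * l 1)) := by ring
          rw [this]
          exact J.mul_mem_left _ huv
        rw [hm2]
        have hs'd : (monomial s' (1 : K)).totalDegree ≤ (s'.sum fun _ e => e) := by
          exact totalDegree_monomial_le _ _
        apply W.add_mem
        · apply hlmul0
          apply ih (n - 1) (by omega)
          refine le_trans (totalDegree_mul _ _) ?_
          omega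
        · apply hlmul0
          apply ih (n - 1) (by omega)
          refine le_trans (totalDegree_mul _ _) ?_
          omega
  have htop : W = ⊤ := by
    rw [eq_top_iff]
    intro x _
    obtain ⟨p, rfl⟩ := Ideal.Quotient.mk_surjective x
    exact hmain _ p le_rfl
  have hfin : Module.Finite (MvPolynomial (Fin 3) K) (MvPolynomial (Fin N) K ⧸ J) := by
    refine ⟨?_⟩
    rw [← htop]
    exact Submodule.fg_span (hT.image _)
  have hint : Algebra.IsIntegral (MvPolynomial (Fin 3) K) (MvPolynomial (Fin N) K ⧸ J) :=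
    Algebra.IsIntegral.of_finite _ _
  exact fun x => hint.isIntegral x

attribute [local instance] MvPolynomial.gradedAlgebra

/-- The relation of integrality for the homogeneous ideal `(T)`. -/
theorem over_rel {T : Set (MvPolynomial (Fin (ν + 1)) ℂ)}
    (hT : ∀ g ∈ T, ∃ e : ℕ, g.IsHomogeneous e) {l₀ l₁ : MvPolynomial (Fin (ν + 1)) ℂ}
    (h0 : l₀.IsHomogeneous 1) (h1 : l₁.IsHomogeneous 1)
    (hno : ∀ z : Fin (ν + 1) → ℂ, (∀ g ∈ T, eval z g = 0) → eval z l₀ = 0 → eval z l₁ = 0 →
      z = 0) : ∃ r, 0 < r ∧ ∀ i : Fin (ν + 1), ∃ v w : MvPolynomial (Fin (ν + 1)) ℂ,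
        v.totalDegree < r ∧ w.totalDegree < r ∧
          X i ^ r - (v * l₀ + w * l₁) ∈ Ideal.span T := by
  classical
  have hev : ∀ (z : Fin (ν + 1) → ℂ) (P : MvPolynomial (Fin (ν + 1)) ℂ),
      aeval z P = eval z P := fun z P => by
    rw [aeval_def, Algebra.algebraMap_self, eval₂_id]
  obtain ⟨r, hr, hX⟩ := Pool.Agent.Helper57.RP.exists_pow_mem (K := ℂ)
    (Ideal.span (insert l₀ (insert l₁ T))) (by
    intro x hx
    refine hno x (fun g hg => ?_) ?_ ?_
    · rw [← hev]
      exact hx g (Ideal.subset_span (Set.mem_insert_of_mem _ (Set.mem_insert_of_mem _ hg)))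
    · rw [← hev]
      exact hx _ (Ideal.subset_span (Set.mem_insert _ _))
    · rw [← hev]
      exact hx _ (Ideal.subset_span (Set.mem_insert_of_mem _ (Set.mem_insert _ _))))
  have hhom : ∀ g ∈ Ideal.span T, ∀ n, homogeneousComponent n g ∈ Ideal.span T := by
    intro g hg n
    have h2 : (Ideal.span T).IsHomogeneous (homogeneousSubmodule (Fin (ν + 1)) ℂ) := by
      refine Ideal.homogeneous_span _ _ fun x hx => ?_
      obtain ⟨e, he⟩ := hT x hx
      exact ⟨e, he⟩
    exact homogeneousComponent_mem_of_mem h2 hg n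
  refine ⟨r, hr, fun i => ?_⟩
  have h2 := hX i
  rw [Ideal.mem_span_insert] at h2
  obtain ⟨a, z, hz, hza⟩ := h2
  rw [Ideal.mem_span_insert] at hz
  obtain ⟨b, g, hg, rfl⟩ := hz
  refine ⟨homogeneousComponent (r - 1) a, homogeneousComponent (r - 1) b, ?_, ?_, ?_⟩
  · refine lt_of_le_of_lt (homogeneousComponent_isHomogeneous _ _).totalDegree_le ?_
    omega
  · refine lt_of_le_of_lt (homogeneousComponent_isHomogeneous _ _).totalDegree_le ?_
    omega
  · have h3 := congrArg (homogeneousComponent r) hza
    have h4 : homogeneousComponent r (X i ^ r : MvPolynomial (Fin (ν + 1)) ℂ) = X i ^ r := by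
      rw [homogeneousComponent_of_mem ((mem_homogeneousSubmodule _ _).2 (isHomogeneous_X_pow i r)),
        if_pos rfl]
    have h5 : ∀ p l : MvPolynomial (Fin (ν + 1)) ℂ, l.IsHomogeneous 1 →
        homogeneousComponent r (p * l) = homogeneousComponent (r - 1) p * l := by
      intro p l hl
      obtain ⟨r', rfl⟩ : ∃ r', r = r' + 1 := ⟨r - 1, by omega⟩
      rw [Nat.add_sub_cancel]
      exact Pool.Agent.Helper36.homogeneousComponent_mul_of_homogeneous hl p r'
    rw [h4, map_add, map_add, h5 _ _ h0, h5 _ _ h1] at h3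
    rw [h3]
    have h6 : homogeneousComponent (r - 1) a * l₀ +
        (homogeneousComponent (r - 1) b * l₁ + homogeneousComponent r g) -
        (homogeneousComponent (r - 1) a * l₀ + homogeneousComponent (r - 1) b * l₁) =
        homogeneousComponent r g := by ring
    rw [h6]
    exact hhom g hg r

/-- If a polynomial vanishes at all multiples of a point, so do its homogeneous components. -/
theorem over_comp {h : MvPolynomial (Fin 3) ℂ} {x : Fin 3 → ℂ}
    (hx : ∀ c : ℂ, eval (c • x) h = 0) (k : ℕ) : eval x (homogeneousComponent k h) = 0 := by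
  classical
  let q : Polynomial ℂ := ∑ k ∈ Finset.range (h.totalDegree + 1),
    Polynomial.C (eval x (homogeneousComponent k h)) * Polynomial.X ^ k
  have h1 : q = 0 := by
    apply Polynomial.funext
    intro c
    rw [Polynomial.eval_zero, ← hx c]
    conv_rhs => rw [← sum_homogeneousComponent (φ := h), map_sum]
    rw [Polynomial.eval_finsetSum]
    refine Finset.sum_congr rfl fun k _ => ?_
    rw [Polynomial.eval_mul, Polynomial.eval_C, Polynomial.eval_pow, Polynomial.eval_X,
      Pool.Agent.Helper38.Dml.eval_smul_of_homog (homogeneousComponent_isHomogeneous k h), mul_comm]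
  by_cases hk : k < h.totalDegree + 1
  · have h2 := congrArg (fun p => Polynomial.coeff p k) h1
    simp only [q, Polynomial.finsetSum_coeff, Polynomial.coeff_C_mul_X_pow,
      Polynomial.coeff_zero] at h2
    rw [Finset.sum_ite_eq (Finset.range (h.totalDegree + 1)) k] at h2
    rw [if_pos (Finset.mem_range.2 hk)] at h2
    exact h2
  · rw [homogeneousComponent_eq_zero k h (by omega), map_zero]

theorem mem_of_infinite {r : ℕ} {w : Fin r → MvPolynomial (Fin (ν + 1)) ℂ} {e : Fin r → ℕ}
    (hw : ∀ j, (w j).IsHomogeneous (e j)) {l : Fin 3 → MvPolynomial (Fin (ν + 1)) ℂ}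
    (hl : ∀ i, (l i).IsHomogeneous 1)
    (noz : ∀ z : Fin (ν + 1) → ℂ, (∀ j, eval z (w j) = 0) → eval z (l 0) = 0 →
      eval z (l 1) = 0 → z = 0)
    {m : ℕ} {g : MvPolynomial (Fin 3) ℂ} (hg : NoFac m g)
    (rel : ∀ z : Fin (ν + 1) → ℂ, (∀ j, eval z (w j) = 0) → eval (fun i => eval z (l i)) g = 0)
    {p : Fin (ν + 1) → ℂ} (hp0 : p ≠ 0) (hp : ∀ j, eval p (w j) = 0)
    (sep : ∀ z : Fin (ν + 1) → ℂ, (∀ j, eval z (w j) = 0) →
      (∀ i i', eval z (l i) * eval p (l i') = eval z (l i') * eval p (l i)) →
      ∀ a b, z a * p b = z b * p a)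
    {T : Set (MvPolynomial (Fin (ν + 1)) ℂ)} (hT : ∀ g ∈ T, ∃ e : ℕ, g.IsHomogeneous e)
    (hTV : ∀ x : Fin (ν + 1) → ℂ, (∀ g ∈ T, eval x g = 0) → ∀ j, eval x (w j) = 0)
    (y : ℕ → Fin (ν + 1) → ℂ) (hy0 : ∀ n, y n ≠ 0) (hyne : ∀ n m, n ≠ m → ¬ PEq (y n) (y m))
    (hyT : ∀ n, ∀ g ∈ T, eval (y n) g = 0) : ∀ g ∈ T, eval p g = 0 := by
  classical
  have hirr := hg.irreducible
  have hsmul : ∀ (g : MvPolynomial (Fin (ν + 1)) ℂ) (m : ℕ), g.IsHomogeneous m →
      ∀ (t : ℂ) (y : Fin (ν + 1) → ℂ), eval (t • y) g = t ^ m * eval y g := by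
    intro g m hg t y
    exact Pool.Agent.Helper38.Dml.eval_smul_of_homog hg t y
  have hno : ∀ z : Fin (ν + 1) → ℂ, (∀ g ∈ T, eval z g = 0) → eval z (l 0) = 0 →
      eval z (l 1) = 0 → z = 0 := fun z hz h0 h1 => noz z (hTV z hz) h0 h1
  -- the images
  set c : ℕ → Fin 3 → ℂ := fun n i => eval (y n) (l i) with hc
  have hc01 : ∀ n, ∃ i₀ : Fin 3, c n i₀ ≠ 0 := by
    intro n
    by_contra hcon
    push Not at hcon
    exact hy0 n (hno _ (hyT n) (hcon 0) (hcon 1))
  have hc0 : ∀ n, c n ≠ 0 := by
    intro n h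
    obtain ⟨i₀, hi₀⟩ := hc01 n
    exact hi₀ (congrFun h i₀)
  -- finitely many points over each image
  have hfib : ∀ n, {m | PEq (c n) (c m)}.Finite := by
    intro n
    by_contra hinf
    have hinf' : {m | PEq (c n) (c m)}.Infinite := hinf
    obtain ⟨i₀, hi₀⟩ := hc01 n
    let a := hinf'.natEmbedding
    obtain ⟨z, hz0, hzT, hzl⟩ := Pool.Agent.Helper30.THC.exists_zero_of_infinite
      (T := T ∪ Set.range fun i => C (c n i₀) * l i - C (c n i) * l i₀) (by
        rintro g (hg | ⟨i, rfl⟩)
        · exact hT g hg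
        · exact ⟨1, ((by simpa using (isHomogeneous_C _ (c n i₀)).mul (hl i)) :
            (C (c n i₀) * l i).IsHomogeneous 1).sub
            (by simpa using (isHomogeneous_C _ (c n i)).mul (hl i₀))⟩) le_rfl (hl i₀)
      (fun k => y (a k)) (fun k => hy0 _) (fun k k' hkk' => hyne _ _ (by
        intro h
        exact hkk' (a.injective (Subtype.ext h)))) (by
        rintro k g (hg | ⟨i, rfl⟩)
        · exact hyT _ g hg
        · obtain ⟨t, ht, h1⟩ := (a k).2
          have h2 : ∀ i, eval (y (a k)) (l i) = t * c n i := fun i => congrFun h1 i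
          simp only [map_sub, map_mul, eval_C, h2]
          ring)
    have hzi : ∀ i, eval z (l i) = 0 := by
      intro i
      have h1 := hzT _ (Or.inr ⟨i, rfl⟩)
      simp only [map_sub, map_mul, eval_C, hzl, mul_zero, sub_zero] at h1
      exact (mul_eq_zero.1 h1).resolve_left hi₀
    exact hz0 (hno z (fun g hg => hzT g (Or.inl hg)) (hzi 0) (hzi 1))
  -- infinitely many images
  let S : Setoid ℕ := ⟨fun n m => PEq (c n) (c m), ⟨fun n => ⟨1, one_ne_zero, (one_smul _ _).symm⟩,
    fun {n m} h => by
      obtain ⟨t, ht, h1⟩ := h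
      refine ⟨t⁻¹, inv_ne_zero ht, ?_⟩
      rw [h1, smul_smul, inv_mul_cancel₀ ht, one_smul],
    fun {n m k} h h' => by
      obtain ⟨t, ht, h1⟩ := h
      obtain ⟨t', ht', h1'⟩ := h'
      exact ⟨t' * t, mul_ne_zero ht' ht, by rw [h1', h1, smul_smul]⟩⟩⟩
  have hinfQ : Infinite (Quotient S) := by
    by_contra hcon
    rw [not_infinite_iff_finite] at hcon
    have h1 : (Quotient.mk S ⁻¹' Set.univ).Finite := by
      refine Set.Finite.preimage' Set.finite_univ fun b _ => ?_
      obtain ⟨n, rfl⟩ := Quotient.exists_rep b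
      refine (hfib n).subset fun m hm => ?_
      have h2 : Quotient.mk S m = Quotient.mk S n := hm
      exact S.symm (Quotient.exact h2)
    rw [Set.preimage_univ] at h1
    exact Set.infinite_univ h1
  -- the polynomials which vanish at the images
  have hkey : ∀ h : MvPolynomial (Fin 3) ℂ, aeval l h ∈ Ideal.span T →
      eval (fun i => eval p (l i)) h = 0 := by
    intro h hh
    have h1 : ∀ (z : Fin (ν + 1) → ℂ), (∀ g ∈ T, eval z g = 0) →
        eval (fun i => eval z (l i)) h = 0 := by
      intro z hz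
      have h2 : Ideal.span T ≤ RingHom.ker (eval z) := by
        rw [Ideal.span_le]
        intro g hg
        exact hz g hg
      have h3 := h2 hh
      rw [RingHom.mem_ker] at h3
      rw [← h3]
      have h4 : (eval z).comp (aeval l : MvPolynomial (Fin 3) ℂ →ₐ[ℂ] _).toRingHom =
          eval (fun i => eval z (l i)) := by
        apply MvPolynomial.ringHom_ext
        · intro r
          simp
        · intro i
          simp
      exact (congrArg (fun f : MvPolynomial (Fin 3) ℂ →+* ℂ => f h) h4).symm
    have h2 : ∀ n k, eval (c n) (homogeneousComponent k h) = 0 := by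
      intro n k
      refine over_comp (fun t => ?_) k
      have h3 := h1 (t • y n) (by
        intro g hg
        obtain ⟨e', he'⟩ := hT g hg
        rw [hsmul g e' he', hyT n g hg, mul_zero])
      rw [← h3]
      congr 1
      congr 1
      funext i
      rw [hsmul (l i) 1 (hl i), pow_one]
      rfl
    have h3 : ∀ k, g ∣ homogeneousComponent k h := by
      intro k
      by_contra hnd
      have h4 := Pool.Agent.Helper30.TP.finite_common_zeros hg.hom
        (homogeneousComponent_isHomogeneous k h) hirr hnd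
        (fun q : Quotient S => c q.out) (fun q => hc0 _) (fun q q' hqq' h => hqq' (by
          have h5 := Quotient.sound (s := S) h
          rw [Quotient.out_eq, Quotient.out_eq] at h5
          exact h5))
      have h5 : {q : Quotient S | eval (c q.out) g = 0 ∧
          eval (c q.out) (homogeneousComponent k h) = 0} = Set.univ := by
        rw [Set.eq_univ_iff_forall]
        intro q
        exact ⟨rel _ (hTV _ (hyT _)), h2 _ k⟩
      rw [h5] at h4
      exact Set.infinite_univ h4
    rw [← sum_homogeneousComponent (φ := h), map_sum]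
    refine Finset.sum_eq_zero fun k _ => ?_
    obtain ⟨q, hq⟩ := h3 k
    rw [hq, map_mul, rel p hp, zero_mul]
  -- lying over
  obtain ⟨r', hr', hrel⟩ := over_rel hT (hl 0) (hl 1) hno
  set J := Ideal.span T with hJ
  have hint := over_finite J l r' hr' hrel
  set φ : MvPolynomial (Fin 3) ℂ →ₐ[ℂ] (MvPolynomial (Fin (ν + 1)) ℂ ⧸ J) :=
    aeval (fun i => Ideal.Quotient.mk J (l i)) with hφ
  have hφl : ∀ h, φ h = Ideal.Quotient.mk J (aeval l h) := by
    intro h
    have h1 : φ = (Ideal.Quotient.mkₐ ℂ J).comp (aeval l) := by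
      apply MvPolynomial.algHom_ext
      intro i
      simp [hφ]
    rw [h1]
    rfl
  set b : Fin 3 → ℂ := fun i => eval p (l i) with hb
  set P : Ideal (MvPolynomial (Fin 3) ℂ) := RingHom.ker (eval b) with hP
  have hPmax : P.IsMaximal := RingHom.ker_isMaximal_of_surjective _ fun t => ⟨C t, eval_C _⟩
  have hker : RingHom.ker φ.toRingHom ≤ P := by
    intro h hh
    rw [hP, RingHom.mem_ker]
    refine hkey h ?_
    have h1 : φ h = 0 := hh
    rw [hφl, Ideal.Quotient.eq_zero_iff_mem] at h1
    exact h1
  obtain ⟨Q, hQmax, hQP⟩ : ∃ Q : Ideal (MvPolynomial (Fin (ν + 1)) ℂ ⧸ J), Q.IsMaximal ∧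
      Q.comap φ.toRingHom = P := by
    let _ : Algebra (MvPolynomial (Fin 3) ℂ) (MvPolynomial (Fin (ν + 1)) ℂ ⧸ J) :=
      φ.toRingHom.toAlgebra
    have : Algebra.IsIntegral (MvPolynomial (Fin 3) ℂ) (MvPolynomial (Fin (ν + 1)) ℂ ⧸ J) :=
      ⟨fun x => hint x⟩
    exact Ideal.exists_ideal_over_maximal_of_isIntegral P hker
  have hQ' : (Q.comap (Ideal.Quotient.mk J)).IsMaximal :=
    Ideal.comap_isMaximal_of_surjective _ Ideal.Quotient.mk_surjective
  obtain ⟨x, hx⟩ := isMaximal_iff_eq_vanishingIdeal_singleton.1 hQ'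
  have hxm : ∀ g, Ideal.Quotient.mk J g ∈ Q → eval x g = 0 := by
    intro g hg
    have h1 : g ∈ Q.comap (Ideal.Quotient.mk J) := hg
    rw [hx, mem_vanishingIdeal_singleton_iff] at h1
    rw [aeval_def, Algebra.algebraMap_self, eval₂_id] at h1
    exact h1
  have hxT : ∀ g ∈ T, eval x g = 0 := by
    intro g hg
    refine hxm g ?_
    rw [Ideal.Quotient.eq_zero_iff_mem.2 (Ideal.subset_span hg)]
    exact Q.zero_mem
  have hxl : ∀ i, eval x (l i) = b i := by
    intro i
    have h1 : (X i - C (b i) : MvPolynomial (Fin 3) ℂ) ∈ P := by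
      rw [hP, RingHom.mem_ker, map_sub, eval_X, eval_C, sub_self]
    rw [← hQP, Ideal.mem_comap] at h1
    have h2 : φ (X i - C (b i)) ∈ Q := h1
    rw [hφl] at h2
    have h3 := hxm _ h2
    have h4 : (aeval l (X i - C (b i) : MvPolynomial (Fin 3) ℂ)) = l i - C (b i) := by
      rw [map_sub, aeval_X, aeval_C]
      rfl
    rw [h4, map_sub, eval_C, sub_eq_zero] at h3
    exact h3
  have hx0 : x ≠ 0 := by
    intro h
    have h1 : ∀ i, b i = 0 := by
      intro i
      rw [← hxl i, h]
      have h2 := hsmul (l i) 1 (hl i) 0 0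
      rw [zero_smul, pow_one, zero_mul] at h2
      exact h2
    exact hp0 (noz p hp (h1 0) (h1 1))
  have hsep := sep x (hTV x hxT) (fun i i' => by
    rw [hxl, hxl]
    exact mul_comm _ _)
  obtain ⟨a, ha⟩ := Function.ne_iff.1 hx0
  have ha' : x a ≠ 0 := ha
  have hpx : p = (p a / x a) • x := by
    funext b'
    rw [Pi.smul_apply, smul_eq_mul, div_mul_eq_mul_div, eq_div_iff ha']
    have := hsep a b'
    linear_combination this
  intro g' hg'
  obtain ⟨e', he'⟩ := hT g' hg'
  rw [hpx, hsmul g' e' he', hxT g' hg', mul_zero]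

end Pool.Agent.Helper30.THD
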