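import Pool.Agent.Helper30.THD.Cl3
import Pool.Agent.Helper30.THD.Over
import Pool.Agent.Helper72.TH.Final

/-!
# Project THD: algebraic data
-/

set_option autoImplicit false

namespace Pool.Agent.Helper30.THD

open MvPolynomial
open Pool.Agent.Helper36 (step iter iter_zero iter_succ iter_succ' iter_add iter_map APSet
  APSet_univ)
open Pool.Agent.Helper38.TQ
open Pool.Agent.Helper30.TKN
open Pool.Agent.Helper30.RED
open Pool.Agent.Helper30.THC
open Pool.Agent.Helper72.TH (Chain ChainS TamePt Meets)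

variable {ν : ℕ}

/-- Algebraic data. -/
theorem cl3_alg {d N r M n : ℕ} {V : Fin r → Fin N} {Λ : Fin 3 → Fin N} {G : Fin M → Fin N}
    {P : Fin N} {Z : Fin n → Fin N} {e : Fin r → ℕ} {u : Fin M → (Fin 3 →₀ ℕ)} {D s t : ℕ}
    {i₀ : Fin (ν + 1)} {δ : Fin n → ℕ} {S : ℕ → Finset (Fin n)}
    {f : Fin (ν + 1) → MvPolynomial (Fin (ν + 1)) ℂ}
    {w : Fin N → MvPolynomial (Fin (ν + 1)) ℂ} {a : Fin (ν + 1) → ℂ}
    (hfa : ∀ i m, IsAlgebraic ℚ ((f i).coeff m)) (hwa : ∀ j m, IsAlgebraic ℚ ((w j).coeff m))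
    (haa : ∀ i, IsAlgebraic ℚ (a i)) (hf : IsEndo d f)
    (hC : Cl3 V Λ G P Z e u D s t i₀ δ S f w) (ha : a ≠ 0) :
    ∃ A, {n | ∀ j, eval (iter f a n) (w (V j)) = 0} = APSet A := by
  classical
  set T₀ : Set (MvPolynomial (Fin (ν + 1)) ℂ) := Set.range fun j => w (V j) with hT₀
  have hT₀f : ∀ g ∈ T₀, ∃ e, g.IsHomogeneous e := by
    rintro g ⟨j, rfl⟩
    exact ⟨_, hC.homV j⟩
  have hset : {n | ∀ j, eval (iter f a n) (w (V j)) = 0} =
      {n | ∀ g ∈ T₀, eval (iter f a n) g = 0} := by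
    ext n
    constructor
    · rintro hn g ⟨j, rfl⟩
      exact hn j
    · intro hn j
      exact hn _ ⟨j, rfl⟩
  rw [hset]
  by_cases hfin : {n : ℕ | ∀ g ∈ T₀, eval (iter f a n) g = 0}.Finite
  · obtain ⟨A, hA⟩ := Pool.Agent.Helper72.PN.MainN_finite hfin
    exact ⟨A, hA⟩
  have hcur : CurveSet T₀ := curveSet_of_forms hT₀f (hC.homL 0) (hC.homL 1)
    fun z hz h0 h1 => hC.noz z (fun j => hz _ ⟨j, rfl⟩) h0 h1
  have hchain : ChainS f (jf f) t fun i => {g | ∃ j ∈ S i, w (Z j) = g} := by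
    refine ⟨?_, ?_, ?_, ?_⟩
    · rintro i _ g ⟨j, -, rfl⟩
      exact ⟨⟨_, hC.chain.hom j⟩, hwa _⟩
    · rintro i hi x hx g ⟨j, hj, rfl⟩
      have h1 := hC.chain.inv i hi x (fun l hl => by
        rw [aevalC]
        exact hx _ ⟨l, hl, rfl⟩) j hj
      simpa only [aevalC] using h1
    · rintro i hi x hx hq g ⟨j, hj, rfl⟩
      have h1 := hC.chain.down i hi x (fun l hl => by
        rw [aevalC]
        exact hx _ ⟨l, hl, rfl⟩) (by rw [aevalC]; exact hq) j hj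
      simpa only [aevalC] using h1
    · intro x hx
      refine hC.chain.empty x fun j hj => ?_
      rw [aevalC]
      exact hx _ ⟨j, hj, rfl⟩
  have hp0 : pt (w P) ≠ 0 := by
    intro h
    have h1 := hC.p1
    rw [h] at h1
    exact zero_ne_one h1
  have hmeet : Meets f T₀ := by
    intro U hU hUV ⟨y, hy0, hne, hyU⟩
    refine ⟨pt (w P), hp0, ?_, t, _, hchain, s, ?_⟩
    · exact mem_of_infinite hC.homV hC.homL hC.noz hC.irr hC.rel hp0 hC.pV hC.sep hU
        (fun x hx j => hUV x hx _ ⟨j, rfl⟩) y hy0 hne hyU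
    · rintro g ⟨j, hj, rfl⟩
      exact hC.tame j hj
  obtain ⟨A, hA⟩ := Pool.Agent.Helper72.TH.final2 hf hfa ha (c := 1) one_ne_zero
    (fun i => by rw [one_mul]; exact haa i) hT₀f hcur hmeet hfin hT₀f
  exact ⟨A, hA⟩

end Pool.Agent.Helper30.THD
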