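import Pool.Agent.Helper30.THD.NoFacSpec
import Pool.Agent.Helper30.THC.Part1

/-!
# Project THD: the class of data and its specialisation
-/

set_option autoImplicit false

namespace Pool.Agent.Helper30.THD

open MvPolynomial
open Pool.Agent.Helper16 (Place IsFunctionField)
open Pool.Agent.Helper36 (step iter iter_zero iter_succ iter_succ' iter_add iter_map)
open Pool.Agent.Helper38.TQ
open Pool.Agent.Helper30.TKN
open Pool.Agent.Helper30.RED
open Pool.Agent.Helper30.THC
open Pool.Agent.Helper72.TH (Chain)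

variable {ν : ℕ}

/-- The point whose coordinates are the coefficients of a linear form. -/
noncomputable def pt {L : Type} [Field L] (q : MvPolynomial (Fin (ν + 1)) L) : Fin (ν + 1) → L :=
  fun i => q.coeff (Finsupp.single i 1)

/-- The polynomial in three variables whose coefficients are coefficients of linear forms. -/
noncomputable def gg {L : Type} [Field L] {M : ℕ} (u : Fin M → (Fin 3 →₀ ℕ))
    (q : Fin M → MvPolynomial (Fin (ν + 1)) L) : MvPolynomial (Fin 3) L :=
  ∑ j, monomial (u j) ((q j).coeff (Finsupp.single 0 1))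

/-- The data: `w (V j)` are the equations of the curve, `w (Λ i)` three linear forms, `w (G j)`
the coefficients of the plane curve, `w P` the point, `w (Z j)` the closed sets of the chain. -/
structure Cl3 {N r M n : ℕ} (V : Fin r → Fin N) (Λ : Fin 3 → Fin N) (G : Fin M → Fin N)
    (P : Fin N) (Z : Fin n → Fin N) (e : Fin r → ℕ) (u : Fin M → (Fin 3 →₀ ℕ)) (D s t : ℕ)
    (i₀ : Fin (ν + 1)) (δ : Fin n → ℕ) (S : ℕ → Finset (Fin n))
    (f : Fin (ν + 1) → MvPolynomial (Fin (ν + 1)) ℂ)
    (w : Fin N → MvPolynomial (Fin (ν + 1)) ℂ) : Prop where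
  homV : ∀ j, (w (V j)).IsHomogeneous (e j)
  homL : ∀ i, (w (Λ i)).IsHomogeneous 1
  noz : ∀ z : Fin (ν + 1) → ℂ, (∀ j, eval z (w (V j)) = 0) → eval z (w (Λ 0)) = 0 →
    eval z (w (Λ 1)) = 0 → z = 0
  pV : ∀ j, eval (pt (w P)) (w (V j)) = 0
  p1 : pt (w P) i₀ = 1
  rel : ∀ z : Fin (ν + 1) → ℂ, (∀ j, eval z (w (V j)) = 0) →
    eval (fun i => eval z (w (Λ i))) (gg u fun j => w (G j)) = 0
  sep : ∀ z : Fin (ν + 1) → ℂ, (∀ j, eval z (w (V j)) = 0) →
    (∀ i i', eval z (w (Λ i)) * eval (pt (w P)) (w (Λ i')) =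
      eval z (w (Λ i')) * eval (pt (w P)) (w (Λ i))) →
    ∀ a b, z a * pt (w P) b = z b * pt (w P) a
  irr : NoFac D (gg u fun j => w (G j))
  chain : Chain ℂ f (jf f) (fun j => w (Z j)) δ S t
  tame : ∀ j ∈ S 0, eval (iter f (pt (w P)) s) (w (Z j)) = 0

theorem pt_map {K : Type} [Field K] [Algebra K ℂ] (q : MvPolynomial (Fin (ν + 1)) K) :
    pt (map (algebraMap K ℂ) q) = fun i => algebraMap K ℂ (pt q i) := by
  funext i
  exact coeff_map _ _ _

theorem gg_map {K : Type} [Field K] [Algebra K ℂ] {M : ℕ} (u : Fin M → (Fin 3 →₀ ℕ))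
    (q : Fin M → MvPolynomial (Fin (ν + 1)) K) :
    (gg u fun j => map (algebraMap K ℂ) (q j)) = map (algebraMap K ℂ) (gg u q) := by
  unfold gg
  rw [map_sum]
  refine Finset.sum_congr rfl fun j _ => ?_
  rw [coeff_map, map_monomial]

theorem gg_red {k K : Type} [Field k] [Field K] [Algebra k K] {b : Place k K} {M : ℕ}
    (u : Fin M → (Fin 3 →₀ ℕ)) {Q : Fin M → MvPolynomial (Fin (ν + 1)) K}
    {q : Fin M → MvPolynomial (Fin (ν + 1)) k} (h : ∀ j, RedP b (Q j) (q j)) :
    RedP (ν := 2) b (gg u Q) (gg u q) := by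
  classical
  unfold gg
  refine RedP.sum _ fun j _ m => ?_
  rw [coeff_monomial, coeff_monomial]
  split_ifs with h0
  · exact h j _
  · rw [map_zero, sub_zero, map_zero]
    exact zero_lt_one

/-- Values at points over the smaller field. -/
theorem eval_algebraMap {K : Type} [Field K] [Algebra K ℂ] (x : Fin (ν + 1) → K)
    (P : MvPolynomial (Fin (ν + 1)) K) :
    eval (fun i => algebraMap K ℂ (x i)) (map (algebraMap K ℂ) P) = algebraMap K ℂ (eval x P) := by
  rw [eval_map]
  exact (eval₂_comp_left (algebraMap K ℂ) (RingHom.id K) x P).symm.trans (by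
    rfl)

/-- Reductions of elements are unique. -/
theorem red_unique {k K : Type} [Field k] [Field K] [Algebra k K] {b : Place k K} {x : K}
    {c c' : k} (h : b.val (x - algebraMap k K c) < 1) (h' : b.val (x - algebraMap k K c') < 1) :
    c = c' := by
  by_contra hne
  have h1 : b.val (algebraMap k K (c - c')) < 1 := by
    have h2 : algebraMap k K (c - c') =
        (x - algebraMap k K c') - (x - algebraMap k K c) := by
      rw [map_sub]; ring
    rw [h2]
    exact (b.val.map_sub _ _).trans_lt (max_lt h' h)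
  rw [b.triv _ (sub_ne_zero.2 hne)] at h1
  exact lt_irrefl _ h1

theorem RedP.sub' {k K : Type} [Field k] [Field K] [Algebra k K] {b : Place k K}
    {P Q : MvPolynomial (Fin (ν + 1)) K} {p q : MvPolynomial (Fin (ν + 1)) k} (hP : RedP b P p)
    (hQ : RedP b Q q) : RedP b (P - Q) (p - q) := by
  rw [sub_eq_add_neg, sub_eq_add_neg]
  exact hP.add hQ.neg

/-- The composition with three linear forms specialises. -/
theorem gg_aeval_red {k K : Type} [Field k] [Field K] [Algebra k K] {b : Place k K} {M : ℕ}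
    (u : Fin M → (Fin 3 →₀ ℕ)) {Q : Fin M → MvPolynomial (Fin (ν + 1)) K}
    {q : Fin M → MvPolynomial (Fin (ν + 1)) k} (h : ∀ j, RedP b (Q j) (q j))
    {Λ : Fin 3 → MvPolynomial (Fin (ν + 1)) K} {l : Fin 3 → MvPolynomial (Fin (ν + 1)) k}
    (hl : ∀ i, RedP b (Λ i) (l i)) :
    RedP b (MvPolynomial.aeval Λ (gg u Q)) (MvPolynomial.aeval l (gg u q)) := by
  unfold gg
  rw [map_sum, map_sum]
  refine RedP.sum _ fun j _ => ?_
  rw [aeval_monomial, aeval_monomial, Finsupp.prod_fintype _ _ fun i => pow_zero _,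
    Finsupp.prod_fintype _ _ fun i => pow_zero _]
  exact (redP_C (h j _)).mul (RedP.prod _ fun i _ => (hl i).pow _)

/-- Iterates specialise. -/
theorem iter_red {k K : Type} [Field k] [Field K] [Algebra k K] {b : Place k K}
    {F : Fin (ν + 1) → MvPolynomial (Fin (ν + 1)) K}
    {f : Fin (ν + 1) → MvPolynomial (Fin (ν + 1)) k} (hF : ∀ i, RedP b (F i) (f i))
    {x : Fin (ν + 1) → K} {z : Fin (ν + 1) → k}
    (hx : ∀ i, b.val (x i - algebraMap k K (z i)) < 1) (s : ℕ) :
    ∀ i, b.val (iter F x s i - algebraMap k K (iter f z s i)) < 1 := by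
  induction s with
  | zero => exact hx
  | succ s ih =>
    intro i
    rw [iter_succ, iter_succ]
    exact (hF i).eval ih

/-- The value at a complex point of a polynomial over a subfield. -/
theorem eval_mapC {K : Type} [Field K] [Algebra K ℂ] (z : Fin (ν + 1) → ℂ)
    (P : MvPolynomial (Fin (ν + 1)) K) : eval z (map (algebraMap K ℂ) P) = aeval z P :=
  (aeval_eq_eval_map z P).symm

theorem gg_eval {K : Type} [Field K] [Algebra K ℂ] (g : MvPolynomial (Fin 3) K)
    (Λ : Fin 3 → MvPolynomial (Fin (ν + 1)) K) (z : Fin (ν + 1) → ℂ) :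
    eval (fun i => eval z (map (algebraMap K ℂ) (Λ i))) (map (algebraMap K ℂ) g) =
      aeval z (aeval Λ g) := by
  rw [comp_aeval_apply, eval_map]
  simp only [eval_mapC]
  rfl

end Pool.Agent.Helper30.THD
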