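import Pool.Agent.Helper30.THD.Cl3

/-!
# Project THD: linear forms and their coefficients
-/

set_option autoImplicit false

namespace Pool.Agent.Helper30.THD

open MvPolynomial

variable {ν : ℕ}

/-- Linear forms and their coefficients. -/
theorem eval_linear {l : MvPolynomial (Fin (ν + 1)) ℂ} (hl : l.IsHomogeneous 1)
    (z : Fin (ν + 1) → ℂ) : eval z l = ∑ i, pt l i * z i := by
  classical
  have h1 : l = ∑ i, monomial (Finsupp.single i 1) (l.coeff (Finsupp.single i 1)) := by
    ext m
    rw [coeff_sum]
    simp only [coeff_monomial]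
    by_cases hm : ∃ i, m = Finsupp.single i 1
    · obtain ⟨i, rfl⟩ := hm
      rw [Finset.sum_eq_single i]
      · rw [if_pos rfl]
      · intro j _ hj
        rw [if_neg]
        intro h
        exact hj ((Finsupp.single_left_inj one_ne_zero).1 h)
      · intro h
        exact absurd (Finset.mem_univ i) h
    · rw [Finset.sum_eq_zero]
      · by_contra h0
        have h2 := hl h0
        apply hm
        have h3 : Finsupp.degree m = 1 := by
          rw [Finsupp.degree_eq_weight_one]
          exact h2
        have h4 : m ∈ Set.range fun a : Fin (ν + 1) => Finsupp.single a 1 := by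
          rw [Finsupp.range_single_one]
          exact h3
        obtain ⟨i, hi⟩ := h4
        exact ⟨i, hi.symm⟩
      · intro i _
        rw [if_neg]
        rintro rfl
        exact hm ⟨i, rfl⟩
  conv_lhs => rw [h1]
  rw [map_sum]
  refine Finset.sum_congr rfl fun i _ => ?_
  rw [eval_monomial, Finsupp.prod_single_index (by rw [pow_zero]), pow_one]
  rfl

/-- The linear form with given coefficients. -/
noncomputable def lin (c : Fin (ν + 1) → ℂ) : MvPolynomial (Fin (ν + 1)) ℂ := ∑ i, C (c i) * X i

theorem lin_hom (c : Fin (ν + 1) → ℂ) : (lin c).IsHomogeneous 1 :=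
  IsHomogeneous.sum _ _ _ fun i _ => by
    have h := (isHomogeneous_C (Fin (ν + 1)) (c i)).mul (isHomogeneous_X ℂ i)
    rwa [zero_add] at h

theorem eval_lin (c z : Fin (ν + 1) → ℂ) : eval z (lin c) = ∑ i, c i * z i := by
  unfold lin
  rw [map_sum]
  refine Finset.sum_congr rfl fun i _ => ?_
  rw [map_mul, eval_C, eval_X]

theorem coeff_CX (c : ℂ) (i j : Fin (ν + 1)) :
    (C c * X i : MvPolynomial (Fin (ν + 1)) ℂ).coeff (Finsupp.single j 1) =
      if i = j then c else 0 := by
  classical
  rw [coeff_C_mul, coeff_X]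
  by_cases h : i = j
  · rw [h, if_pos rfl, if_pos rfl, mul_one]
  · rw [if_neg h, if_neg, mul_zero]
    intro h1
    exact h ((Finsupp.single_left_inj one_ne_zero).1 h1)

theorem pt_lin (c : Fin (ν + 1) → ℂ) : pt (lin c) = c := by
  classical
  funext j
  unfold pt lin
  rw [coeff_sum]
  simp only [coeff_CX]
  rw [Finset.sum_ite_eq' Finset.univ j fun i => c i]
  exact if_pos (Finset.mem_univ _)

/-- A polynomial in three variables as a value of `gg`. -/
theorem exists_gg (g : MvPolynomial (Fin 3) ℂ) :
    ∃ (M : ℕ) (u : Fin M → (Fin 3 →₀ ℕ)) (q : Fin M → MvPolynomial (Fin (ν + 1)) ℂ),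
      gg u q = g := by
  classical
  refine ⟨g.support.card, fun j => (g.support.equivFin.symm j : Fin 3 →₀ ℕ),
    fun j => C (g.coeff (g.support.equivFin.symm j : Fin 3 →₀ ℕ)) * X 0, ?_⟩
  unfold gg
  simp only [coeff_CX, if_true]
  rw [Fintype.sum_equiv g.support.equivFin.symm _
    (fun m : g.support => monomial (m : Fin 3 →₀ ℕ) (g.coeff m)) (fun j => rfl)]
  rw [Finset.sum_coe_sort g.support fun m => monomial m (g.coeff m)]
  exact support_sum_monomial_coeff g

end Pool.Agent.Helper30.THD
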