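import Pool.Agent.Helper30.THD.Part3
import Pool.Agent.Helper30.THD.Lin
import Pool.Agent.Helper30.THC.Sets

/-!
# Project THD: the theorem for an irreducible relation and a separated point
-/

set_option autoImplicit false

namespace Pool.Agent.Helper30.THD

open MvPolynomial Filter
open Pool.Agent.Helper36 (step iter iter_zero iter_succ iter_succ' iter_add iter_map APSet
  APSet_univ)
open Pool.Agent.Helper38.TQ
open Pool.Agent.Helper30.TKN
open Pool.Agent.Helper30.THC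
open Pool.Agent.Helper72.TH (Chain)

variable {ν : ℕ}

theorem core {d : ℕ} {f : Fin (ν + 1) → MvPolynomial (Fin (ν + 1)) ℂ} (hf : IsEndo d f)
    {a : Fin (ν + 1) → ℂ} (ha : a ≠ 0) {r : ℕ} {v : Fin r → MvPolynomial (Fin (ν + 1)) ℂ}
    (hv : ∀ j, ∃ e : ℕ, (v j).IsHomogeneous e) {l : Fin 3 → MvPolynomial (Fin (ν + 1)) ℂ}
    (hl : ∀ i, (l i).IsHomogeneous 1)
    (noz : ∀ z : Fin (ν + 1) → ℂ, (∀ j, eval z (v j) = 0) → eval z (l 0) = 0 →
      eval z (l 1) = 0 → z = 0)
    {p : Fin (ν + 1) → ℂ} {i₀ : Fin (ν + 1)} (hp1 : p i₀ = 1) (hp : ∀ j, eval p (v j) = 0)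
    {D : ℕ} {g : MvPolynomial (Fin 3) ℂ} (hg : NoFac D g)
    (rel : ∀ z : Fin (ν + 1) → ℂ, (∀ j, eval z (v j) = 0) → eval (fun i => eval z (l i)) g = 0)
    (sep : ∀ z : Fin (ν + 1) → ℂ, (∀ j, eval z (v j) = 0) →
      (∀ i i', eval z (l i) * eval p (l i') = eval z (l i') * eval p (l i)) →
      ∀ a b, z a * p b = z b * p a)
    {k : ℕ} {Z : ℕ → Set (MvPolynomial (Fin (ν + 1)) ℂ)} (hZ : ChainC f (jf f) k Z) {s : ℕ}
    (hs : ∀ g ∈ Z 0, eval (iter f p s) g = 0) :
    ∃ A, {n | ∀ j, eval (iter f a n) (v j) = 0} = APSet A := by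
  classical
  obtain ⟨n, W, δ, S, hch, hSZ⟩ := exists_chain hZ
  obtain ⟨M, u, q, hgg⟩ := exists_gg (ν := ν) g
  choose e he using hv
  set ε := Fintype.equivFin (Fin r ⊕ (Fin 3 ⊕ (Fin M ⊕ (Unit ⊕ Fin n)))) with hε
  set N := Fintype.card (Fin r ⊕ (Fin 3 ⊕ (Fin M ⊕ (Unit ⊕ Fin n)))) with hN
  let w : Fin N → MvPolynomial (Fin (ν + 1)) ℂ := fun x =>
    Sum.elim v (Sum.elim l (Sum.elim q (Sum.elim (fun _ => lin p) W))) (ε.symm x)
  let V : Fin r → Fin N := fun j => ε (Sum.inl j)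
  let Λ : Fin 3 → Fin N := fun j => ε (Sum.inr (Sum.inl j))
  let G : Fin M → Fin N := fun j => ε (Sum.inr (Sum.inr (Sum.inl j)))
  let P : Fin N := ε (Sum.inr (Sum.inr (Sum.inr (Sum.inl ()))))
  let Y : Fin n → Fin N := fun j => ε (Sum.inr (Sum.inr (Sum.inr (Sum.inr j))))
  have hwV : ∀ j, w (V j) = v j := by
    intro j
    change Sum.elim v _ (ε.symm (ε (Sum.inl j))) = v j
    rw [Equiv.symm_apply_apply]
    rfl
  have hwL : ∀ j, w (Λ j) = l j := by
    intro j
    change Sum.elim v _ (ε.symm (ε (Sum.inr (Sum.inl j)))) = l j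
    rw [Equiv.symm_apply_apply]
    rfl
  have hwG : ∀ j, w (G j) = q j := by
    intro j
    change Sum.elim v _ (ε.symm (ε (Sum.inr (Sum.inr (Sum.inl j))))) = q j
    rw [Equiv.symm_apply_apply]
    rfl
  have hwP : pt (w P) = p := by
    change pt (Sum.elim v _ (ε.symm (ε (Sum.inr (Sum.inr (Sum.inr (Sum.inl ()))))))) = p
    rw [Equiv.symm_apply_apply]
    exact pt_lin p
  have hwY : ∀ j, w (Y j) = W j := by
    intro j
    change Sum.elim v _ (ε.symm (ε (Sum.inr (Sum.inr (Sum.inr (Sum.inr j)))))) = W j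
    rw [Equiv.symm_apply_apply]
    rfl
  have hC : Cl3 V Λ G P Y e u D s k i₀ δ S f w := by
    refine ⟨?_, ?_, ?_, ?_, ?_, ?_, ?_, ?_, ?_, ?_⟩
    · intro j
      rw [hwV]
      exact he j
    · intro j
      rw [hwL]
      exact hl j
    · intro z hz h0 h1
      rw [hwL] at h0 h1
      exact noz z (fun j => by
        rw [← hwV]
        exact hz j) h0 h1
    · intro j
      rw [hwV, hwP]
      exact hp j
    · rw [hwP]
      exact hp1
    · intro z hz
      simp only [hwL, hwG]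
      rw [hgg]
      exact rel z fun j => by
        rw [← hwV]
        exact hz j
    · intro z hz h
      simp only [hwL, hwP] at h ⊢
      exact sep z (fun j => by
        rw [← hwV]
        exact hz j) h
    · simp only [hwG]
      rw [hgg]
      exact hg
    · simp only [hwY]
      exact hch
    · intro j hj
      rw [hwY, hwP]
      exact hs _ (hSZ 0 (Nat.zero_le k) j hj)
  obtain ⟨A, hA⟩ := part3_data hf hC ha
  refine ⟨A, ?_⟩
  rw [← hA]
  simp only [hwV]

end Pool.Agent.Helper30.THD
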