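import Pool.Agent.Helper30.THC.Incl
import Pool.Agent.Helper30.THC.Meet
import Pool.Agent.Helper30.TP.LFin
import Pool.Agent.Helper50.N2.Comp

/-!
# Project THD (curves through a tame point, over the complex numbers): definitions
-/

set_option autoImplicit false

namespace Pool.Agent.Helper30.THD

open MvPolynomial

/-- The form `g` of degree `m` in three variables is nonzero and not a product of forms of positive
degrees. -/
structure NoFac {L : Type} [Field L] (m : ℕ) (g : MvPolynomial (Fin 3) L) : Prop where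
  hom : g.IsHomogeneous m
  ne : g ≠ 0
  pos : 1 ≤ m
  fac : ∀ (m₁ m₂ : ℕ) (g₁ g₂ : MvPolynomial (Fin 3) L), m₁ + m₂ = m → 1 ≤ m₁ → 1 ≤ m₂ →
    g₁.IsHomogeneous m₁ → g₂.IsHomogeneous m₂ → g₁ * g₂ ≠ g

end Pool.Agent.Helper30.THD
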