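import Pool.Agent.Helper30.THD.Defs

/-!
# Project THD: an irreducible relation between three linear forms along an ultrafilter
-/

set_option autoImplicit false

namespace Pool.Agent.Helper30.THD

open MvPolynomial Filter
open Pool.Agent.Helper38.TQ (OnCurve)

variable {ν : ℕ}

/-- If a form vanishes at almost all points, so does a form without factorisations. -/
theorem exists_nofac_aux {U : Ultrafilter ℕ} (y : ℕ → Fin 3 → ℂ) (e : ℕ) :
    ∀ P : MvPolynomial (Fin 3) ℂ, P.IsHomogeneous e → P ≠ 0 →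
      (∀ᶠ n in (U : Filter ℕ), eval (y n) P = 0) →
      ∃ (D : ℕ) (g : MvPolynomial (Fin 3) ℂ), NoFac D g ∧
        ∀ᶠ n in (U : Filter ℕ), eval (y n) g = 0 := by
  induction e using Nat.strong_induction_on with
  | _ e ih =>
    intro P hP hP0 hPU
    have he : 1 ≤ e := by
      by_contra h0
      have h1 : e = 0 := by omega
      rw [h1] at hP
      have h2 : P = C (P.coeff 0) := by
        have := hP.totalDegree_le
        exact totalDegree_eq_zero_iff_eq_C.1 (by omega)
      obtain ⟨n, hn⟩ := hPU.exists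
      rw [h2, eval_C] at hn
      rw [hn, C_0] at h2
      exact hP0 h2
    by_cases hfac : ∀ (m₁ m₂ : ℕ) (g₁ g₂ : MvPolynomial (Fin 3) ℂ), m₁ + m₂ = e → 1 ≤ m₁ →
        1 ≤ m₂ → g₁.IsHomogeneous m₁ → g₂.IsHomogeneous m₂ → g₁ * g₂ ≠ P
    · exact ⟨e, P, ⟨hP, hP0, he, hfac⟩, hPU⟩
    · push Not at hfac
      obtain ⟨m₁, m₂, g₁, g₂, hm, h1, h2, hg₁, hg₂, hg⟩ := hfac
      have h3 : ∀ᶠ n in (U : Filter ℕ), eval (y n) g₁ = 0 ∨ eval (y n) g₂ = 0 := by
        filter_upwards [hPU] with n hn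
        rw [← hg, map_mul, mul_eq_zero] at hn
        exact hn
      rcases Ultrafilter.eventually_or.1 h3 with h4 | h4
      · refine ih m₁ (by omega) g₁ hg₁ ?_ h4
        rintro rfl
        exact hP0 (by rw [← hg, zero_mul])
      · refine ih m₂ (by omega) g₂ hg₂ ?_ h4
        rintro rfl
        exact hP0 (by rw [← hg, mul_zero])

theorem exists_nofac {U : Ultrafilter ℕ} {x : ℕ → Fin (ν + 1) → ℂ} (h : OnCurve U x)
    (m : Fin 3 → Fin (ν + 1) → ℂ) :
    ∃ (D : ℕ) (g : MvPolynomial (Fin 3) ℂ), NoFac D g ∧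
      ∀ᶠ n in (U : Filter ℕ), eval (fun j => ∑ i, m j i * x n i) g = 0 := by
  obtain ⟨P, e, hP, hP0, hPU⟩ := h m
  exact exists_nofac_aux _ e P hP hP0 hPU

end Pool.Agent.Helper30.THD
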