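import Pool.Agent.Helper30.THD.Defs

/-!
# Project THD: a linear form which separates a point of a curve from the others in its fibre

Let `l₀`, `l₁` have no common zero on the closed set `V` of `S` and let `p ∈ V`. Put
`c₀ = l₀(p)`, `c₁ = l₁(p)`, not both zero. The closed subset of `V` given by `c₀ l₁ - c₁ l₀` is
finite: else it contains by `THC.exists_zero_of_infinite` a zero `z ≠ 0` of `l₀` (if `c₀ ≠ 0`) or of
`l₁`, and there both forms vanish. Choose representatives `x_1, …, x_t` of its points which are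
different from `p`, with `l₀(x_i) = l₀(p)`, `l₁(x_i) = l₁(p)`, and a linear form `l₂` with
`l₂(x_i - p) ≠ 0` for all `i` (`ℂ` is infinite).
-/

set_option autoImplicit false

namespace Pool.Agent.Helper30.THD

open MvPolynomial
open Pool.Agent.Helper38.TQ (PEq)

variable {ν : ℕ}

/-- a linear form which does not vanish at finitely many nonzero vectors -/
theorem exists_form_ne {A : Set (Fin (ν + 1) → ℂ)} (hA : A.Finite) (h0 : ∀ x ∈ A, x ≠ 0) :
    ∃ w : Fin (ν + 1) → ℂ, ∀ x ∈ A, ∑ i, w i * x i ≠ 0 := by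
  classical
  let P : (Fin (ν + 1) → ℂ) → MvPolynomial (Fin (ν + 1)) ℂ := fun x => ∑ i, C (x i) * X i
  have hP : ∀ x w, eval w (P x) = ∑ i, w i * x i := by
    intro x w
    simp only [P, map_sum, map_mul, eval_C, eval_X]
    exact Finset.sum_congr rfl fun i _ => mul_comm _ _
  have hP0 : ∀ x ∈ A, P x ≠ 0 := by
    intro x hx h
    refine h0 x hx (funext fun j => ?_)
    have h1 := hP x (Pi.single j 1)
    rw [h, map_zero] at h1
    simp only [Pi.single_apply, ite_mul, one_mul, zero_mul, Finset.sum_ite_eq',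
      Finset.mem_univ, if_true] at h1
    exact h1.symm
  have hQ : (∏ x ∈ hA.toFinset, P x) ≠ 0 :=
    Finset.prod_ne_zero_iff.2 fun x hx => hP0 x (hA.mem_toFinset.1 hx)
  obtain ⟨w, hw⟩ : ∃ w : Fin (ν + 1) → ℂ, eval w (∏ x ∈ hA.toFinset, P x) ≠ 0 := by
    by_contra hcon
    push Not at hcon
    exact hQ (MvPolynomial.funext fun w => by rw [hcon w, map_zero])
  refine ⟨w, fun x hx => ?_⟩
  rw [map_prod, Finset.prod_ne_zero_iff] at hw
  rw [← hP]
  exact hw x (hA.mem_toFinset.2 hx)

theorem exists_sep {S : Set (MvPolynomial (Fin (ν + 1)) ℂ)} (hS : ∀ g ∈ S, ∃ e : ℕ,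
      g.IsHomogeneous e) {l₀ l₁ : MvPolynomial (Fin (ν + 1)) ℂ} (h0 : l₀.IsHomogeneous 1)
    (h1 : l₁.IsHomogeneous 1)
    (noz : ∀ z : Fin (ν + 1) → ℂ, (∀ g ∈ S, eval z g = 0) → eval z l₀ = 0 → eval z l₁ = 0 → z = 0)
    {p : Fin (ν + 1) → ℂ} (hp0 : p ≠ 0) (hp : ∀ g ∈ S, eval p g = 0) :
    ∃ l₂ : MvPolynomial (Fin (ν + 1)) ℂ, l₂.IsHomogeneous 1 ∧ ∀ z : Fin (ν + 1) → ℂ,
      (∀ g ∈ S, eval z g = 0) → eval z l₀ * eval p l₁ = eval z l₁ * eval p l₀ →
      eval z l₀ * eval p l₂ = eval z l₂ * eval p l₀ →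
      eval z l₁ * eval p l₂ = eval z l₂ * eval p l₁ → ∀ a b, z a * p b = z b * p a := by
  classical
  have hsc : ∀ (g : MvPolynomial (Fin (ν + 1)) ℂ) (e : ℕ), g.IsHomogeneous e → ∀ (c : ℂ)
      (x : Fin (ν + 1) → ℂ), eval (c • x) g = c ^ e * eval x g := by
    intro g e hg c x
    have hm : ∀ m ∈ g.support, eval (c • x) (monomial m (g.coeff m)) =
        c ^ e * eval x (monomial m (g.coeff m)) := by
      intro m hm
      have hdeg : ∑ i ∈ m.support, m i = e := by
        have := hg (mem_support_iff.1 hm)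
        rw [Finsupp.weight_apply, Finsupp.sum] at this
        simpa only [Pi.one_apply, smul_eq_mul, mul_one] using this
      simp only [eval_monomial, Pi.smul_apply, smul_eq_mul, Finsupp.prod, mul_pow,
        Finset.prod_mul_distrib, Finset.prod_pow_eq_pow_sum, hdeg]
      ring
    conv_lhs => rw [g.as_sum]
    conv_rhs => rw [g.as_sum]
    rw [map_sum, map_sum, Finset.mul_sum]
    exact Finset.sum_congr rfl hm
  have hl : ∀ l : MvPolynomial (Fin (ν + 1)) ℂ, l.IsHomogeneous 1 → ∀ (c : ℂ)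
      (x : Fin (ν + 1) → ℂ), eval (c • x) l = c * eval x l := by
    intro l hl c x
    rw [hsc l 1 hl, pow_one]
  have hV : ∀ (c : ℂ) (x : Fin (ν + 1) → ℂ), (∀ g ∈ S, eval x g = 0) →
      ∀ g ∈ S, eval (c • x) g = 0 := by
    intro c x hx g hg
    obtain ⟨e, he⟩ := hS g hg
    rw [hsc g e he, hx g hg, mul_zero]
  have hc : eval p l₀ ≠ 0 ∨ eval p l₁ ≠ 0 := by
    by_contra hcon
    push Not at hcon
    exact hp0 (noz p hp hcon.1 hcon.2)
  set A : Set (Fin (ν + 1) → ℂ) := {z | (∀ g ∈ S, eval z g = 0) ∧ eval z l₀ = eval p l₀ ∧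
    eval z l₁ = eval p l₁} with hA
  have hAne : ∀ z ∈ A, z ≠ 0 := by
    rintro z ⟨-, hz0, hz1⟩ rfl
    have e0 : eval (0 : Fin (ν + 1) → ℂ) l₀ = 0 := by
      have := hl l₀ h0 0 (0 : Fin (ν + 1) → ℂ)
      rwa [zero_smul, zero_mul] at this
    have e1 : eval (0 : Fin (ν + 1) → ℂ) l₁ = 0 := by
      have := hl l₁ h1 0 (0 : Fin (ν + 1) → ℂ)
      rwa [zero_smul, zero_mul] at this
    rw [e0] at hz0
    rw [e1] at hz1
    rcases hc with h | h
    · exact h hz0.symm
    · exact h hz1.symm
  have hprop : ∀ z ∈ A, ∀ z' ∈ A, PEq z z' → z = z' := by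
    rintro z ⟨-, hz0, hz1⟩ z' ⟨-, hz0', hz1'⟩ ⟨c, -, rfl⟩
    rw [hl l₀ h0, hz0] at hz0'
    rw [hl l₁ h1, hz1] at hz1'
    have hc1 : c = 1 := by
      rcases hc with h | h
      · exact mul_right_cancel₀ h (by rw [hz0', one_mul])
      · exact mul_right_cancel₀ h (by rw [hz1', one_mul])
    rw [hc1, one_smul]
  have hfin : A.Finite := by
    by_contra hinf
    have hinf' : A.Infinite := hinf
    let q : ℕ → Fin (ν + 1) → ℂ := fun n => (hinf'.natEmbedding A n : Fin (ν + 1) → ℂ)
    have hqA : ∀ n, q n ∈ A := fun n => (hinf'.natEmbedding A n).2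
    have hqi : ∀ n m, n ≠ m → ¬ PEq (q n) (q m) := by
      intro n m hnm h
      have h2 := hprop _ (hqA n) _ (hqA m) h
      exact hnm ((hinf'.natEmbedding A).injective (Subtype.ext h2))
    set G : MvPolynomial (Fin (ν + 1)) ℂ := C (eval p l₀) * l₁ - C (eval p l₁) * l₀ with hG
    have hGh : G.IsHomogeneous 1 := by
      have a1 : (C (eval p l₀) * l₁ : MvPolynomial (Fin (ν + 1)) ℂ).IsHomogeneous 1 := by
        have := (isHomogeneous_C (Fin (ν + 1)) (eval p l₀)).mul h1
        rwa [zero_add] at this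
      have a2 : (C (eval p l₁) * l₀ : MvPolynomial (Fin (ν + 1)) ℂ).IsHomogeneous 1 := by
        have := (isHomogeneous_C (Fin (ν + 1)) (eval p l₁)).mul h0
        rwa [zero_add] at this
      exact a1.sub a2
    have hGe : ∀ x, eval x G = eval p l₀ * eval x l₁ - eval p l₁ * eval x l₀ := by
      intro x
      simp only [hG, map_sub, map_mul, eval_C]
    have hT : ∀ g ∈ insert G S, ∃ e : ℕ, g.IsHomogeneous e := by
      intro g hg
      rcases hg with rfl | hg
      · exact ⟨1, hGh⟩
      · exact hS g hg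
    have hqT : ∀ n, ∀ g ∈ insert G S, eval (q n) g = 0 := by
      intro n g hg
      obtain ⟨b1, b2, b3⟩ := hqA n
      rcases hg with rfl | hg
      · rw [hGe, b2, b3]
        ring
      · exact b1 g hg
    rcases hc with h | h
    · obtain ⟨y, hy0, hyT, hyG⟩ := Pool.Agent.Helper30.THC.exists_zero_of_infinite hT le_rfl h0 q
        (fun n => hAne _ (hqA n)) hqi hqT
      refine hy0 (noz y (fun g hg => hyT g (Set.mem_insert_of_mem _ hg)) hyG ?_)
      have := hyT G (Set.mem_insert _ _)
      rw [hGe, hyG, mul_zero, sub_zero] at this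
      exact (mul_eq_zero.1 this).resolve_left h
    · obtain ⟨y, hy0, hyT, hyG⟩ := Pool.Agent.Helper30.THC.exists_zero_of_infinite hT le_rfl h1 q
        (fun n => hAne _ (hqA n)) hqi hqT
      refine hy0 (noz y (fun g hg => hyT g (Set.mem_insert_of_mem _ hg)) ?_ hyG)
      have := hyT G (Set.mem_insert _ _)
      rw [hGe, hyG, mul_zero, zero_sub, neg_eq_zero] at this
      exact (mul_eq_zero.1 this).resolve_left h
  obtain ⟨w, hw⟩ := exists_form_ne (A := (fun x => x - p) '' (A \ {p}))
    ((hfin.subset Set.sdiff_subset).image _) (by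
      rintro _ ⟨x, ⟨-, hx⟩, rfl⟩
      exact sub_ne_zero.2 hx)
  refine ⟨∑ i, C (w i) * X i, ?_, ?_⟩
  · refine IsHomogeneous.sum _ _ _ fun i _ => ?_
    have := (isHomogeneous_C (Fin (ν + 1)) (w i)).mul (isHomogeneous_X ℂ i)
    rwa [zero_add] at this
  · have hle : ∀ x, eval x (∑ i, C (w i) * X i) = ∑ i, w i * x i := by
      intro x
      simp only [map_sum, map_mul, eval_C, eval_X]
    intro z hz e1 e2 e3 a b
    by_cases hz0 : z = 0
    · simp [hz0]
    · obtain ⟨t, ht0, ht1⟩ : ∃ t : ℂ, eval z l₀ = t * eval p l₀ ∧ eval z l₁ = t * eval p l₁ := by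
        rcases hc with h | h
        · refine ⟨eval z l₀ / eval p l₀, by field_simp, ?_⟩
          field_simp
          linear_combination -e1
        · refine ⟨eval z l₁ / eval p l₁, ?_, by field_simp⟩
          field_simp
          linear_combination e1
      have ht : t ≠ 0 := by
        rintro rfl
        rw [zero_mul] at ht0 ht1
        exact hz0 (noz z hz ht0 ht1)
      have hxA : t⁻¹ • z ∈ A := by
        refine ⟨hV _ _ hz, ?_, ?_⟩
        · rw [hl l₀ h0, ht0]
          field_simp
        · rw [hl l₁ h1, ht1]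
          field_simp
      have hx : t⁻¹ • z = p := by
        by_contra hne
        have h3 := hw (t⁻¹ • z - p) ⟨t⁻¹ • z, ⟨hxA, hne⟩, rfl⟩
        apply h3
        rw [hle, hle] at e2 e3
        rw [ht0] at e2
        rw [ht1] at e3
        have h4 : ∑ i, w i * (t⁻¹ • z - p) i = t⁻¹ * (∑ i, w i * z i) - ∑ i, w i * p i := by
          rw [Finset.mul_sum, ← Finset.sum_sub_distrib]
          refine Finset.sum_congr rfl fun i _ => ?_
          simp only [Pi.sub_apply, Pi.smul_apply, smul_eq_mul]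
          ring
        rw [h4]
        rcases hc with h | h
        · have h5 : t * (∑ i, w i * p i) = ∑ i, w i * z i :=
            mul_right_cancel₀ h (by linear_combination e2)
          rw [← h5]
          field_simp
          ring
        · have h5 : t * (∑ i, w i * p i) = ∑ i, w i * z i :=
            mul_right_cancel₀ h (by linear_combination e3)
          rw [← h5]
          field_simp
          ring
      have hzt : z = t • p := by
        rw [← hx, smul_smul, mul_inv_cancel₀ ht, one_smul]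
      rw [hzt]
      simp only [Pi.smul_apply, smul_eq_mul]
      ring

end Pool.Agent.Helper30.THD
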