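import Pool.Agent.Helper30.THD.Core
import Pool.Agent.Helper30.THD.Rel
import Pool.Agent.Helper30.THD.Sep
import Pool.Agent.Helper30.TP.Plc
import Pool.Agent.Helper72.TH.Final3
import Pool.Agent.Helper72.TH.Trans

/-!
# Project THD: curves through tame points, over the complex numbers
-/

set_option autoImplicit false

namespace Pool.Agent.Helper30.THD

open MvPolynomial Filter
open Pool.Agent.Helper36 (step iter iter_zero iter_succ iter_succ' iter_add iter_map APSet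
  APSet_univ)
open Pool.Agent.Helper38.TQ
open Pool.Agent.Helper30.TKN
open Pool.Agent.Helper30.RED
open Pool.Agent.Helper30.THC
open Pool.Agent.Helper30.TP (Free union_of_ultra)
open Pool.Agent.Helper72.TH (Chain vanK vanK_mem)

variable {ν : ℕ}

/-- A progression in a finite union of progressions which is a member of the ultrafilter. -/
theorem exists_ap {U : Ultrafilter ℕ} {A : Finset (ℕ × ℕ)} (h : APSet A ∈ U) :
    ∃ q r : ℕ, {n | ∃ m, n = q * m + r} ∈ U ∧ {n | ∃ m, n = q * m + r} ⊆ APSet A := by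
  have h1 : APSet A = ⋃ p ∈ (A : Set (ℕ × ℕ)), {n : ℕ | ∃ m, n = p.1 * m + p.2} := by
    ext n
    simp only [APSet, Set.mem_ofPred_eq, Set.mem_iUnion, Finset.mem_coe, exists_prop]
  rw [h1, Ultrafilter.finite_biUnion_mem_iff A.finite_toSet] at h
  obtain ⟨p, hp, hpU⟩ := h
  exact ⟨p.1, p.2, hpU, fun n hn => ⟨p, hp, hn⟩⟩

/-- The values of a polynomial in three linear forms. -/
theorem eval_aeval3 (l : Fin 3 → MvPolynomial (Fin (ν + 1)) ℂ) (g : MvPolynomial (Fin 3) ℂ)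
    (z : Fin (ν + 1) → ℂ) : eval z (aeval l g) = eval (fun i => eval z (l i)) g := by
  have h := comp_aeval_apply (aeval z : MvPolynomial (Fin (ν + 1)) ℂ →ₐ[ℂ] ℂ) (f := l) g
  simp only [aevalC] at h
  rw [h]

/-- The data for the forms vanishing along an ultrafilter and one of their common zeros. -/
theorem exists_sepdata {x : ℕ → Fin (ν + 1) → ℂ} {U : Ultrafilter ℕ}
    {T : Set (MvPolynomial (Fin (ν + 1)) ℂ)} (hT : T = vanK U x)
    {V : Set (MvPolynomial (Fin (ν + 1)) ℂ)} (hV : ∀ g ∈ V, ∃ e, g.IsHomogeneous e)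
    (hdim : ringKrullDim (MvPolynomial (Fin (ν + 1)) ℂ ⧸ Ideal.span V) ≤ 2)
    (hTV : ∀ x : Fin (ν + 1) → ℂ, (∀ g ∈ T, eval x g = 0) → ∀ g ∈ V, eval x g = 0)
    {p : Fin (ν + 1) → ℂ} (hp0 : p ≠ 0) (hpT : ∀ g ∈ T, eval p g = 0) :
    ∃ (r : ℕ) (v : Fin r → MvPolynomial (Fin (ν + 1)) ℂ)
      (l : Fin 3 → MvPolynomial (Fin (ν + 1)) ℂ) (D : ℕ) (g : MvPolynomial (Fin 3) ℂ),
      (∀ j, v j ∈ T) ∧
      (∀ z : Fin (ν + 1) → ℂ, (∀ j, eval z (v j) = 0) → ∀ g ∈ T, eval z g = 0) ∧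
      (∀ i, (l i).IsHomogeneous 1) ∧
      (∀ z : Fin (ν + 1) → ℂ, (∀ j, eval z (v j) = 0) → eval z (l 0) = 0 →
        eval z (l 1) = 0 → z = 0) ∧
      NoFac D g ∧
      (∀ z : Fin (ν + 1) → ℂ, (∀ j, eval z (v j) = 0) →
        eval (fun i => eval z (l i)) g = 0) ∧
      ∀ z : Fin (ν + 1) → ℂ, (∀ j, eval z (v j) = 0) →
        (∀ i i', eval z (l i) * eval p (l i') = eval z (l i') * eval p (l i)) →
        ∀ a b, z a * p b = z b * p a := by
  classical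
  have hTf : ∀ g ∈ T, ∃ e, g.IsHomogeneous e := by
    rw [hT]
    exact fun g hg => hg.1
  have hTU : ∀ᶠ n in (U : Filter ℕ), ∀ g ∈ T, eval (x n) g = 0 := by
    rw [hT]
    exact vanK_mem U _
  -- the linear forms
  obtain ⟨c, hc⟩ := exists_two_forms hV hdim
  have hnoz : ∀ z : Fin (ν + 1) → ℂ, (∀ g ∈ T, eval z g = 0) → eval z (lin (c 0)) = 0 →
      eval z (lin (c 1)) = 0 → z = 0 := by
    intro z hz h0 h1
    refine hc z (hTV z hz) fun j hj => ?_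
    rw [eval_lin] at h0 h1
    interval_cases j
    · exact h0
    · exact h1
  obtain ⟨l₂, hl₂, hsep⟩ := exists_sep hTf (lin_hom (c 0)) (lin_hom (c 1)) hnoz hp0 hpT
  -- the plane curve
  have hcur : CurveSet V := curveSet_of_krull hV hdim
  have hon : OnCurve U x := by
    refine hcur ℂ _ U ?_
    filter_upwards [hTU] with n hn g hg
    exact hTV _ hn g hg
  obtain ⟨D, g, hg, hgU⟩ := exists_nofac hon ![c 0, c 1, pt l₂]
  -- finitely many equations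
  obtain ⟨S₀, hS₀T, hS₀⟩ := exists_finite_subfamily T
  let v : Fin S₀.card → MvPolynomial (Fin (ν + 1)) ℂ := fun j => (S₀.equivFin.symm j : _)
  have hv : ∀ j, v j ∈ T := fun j => hS₀T (S₀.equivFin.symm j).2
  have hvT : ∀ z : Fin (ν + 1) → ℂ, (∀ j, eval z (v j) = 0) → ∀ g ∈ T, eval z g = 0 := by
    intro z hz
    refine hS₀ z fun h hh => ?_
    have h1 := hz (S₀.equivFin ⟨h, hh⟩)
    change eval z ((S₀.equivFin.symm (S₀.equivFin ⟨h, hh⟩) : S₀) : MvPolynomial _ ℂ) = 0 at h1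
    rw [Equiv.symm_apply_apply] at h1
    exact h1
  set l : Fin 3 → MvPolynomial (Fin (ν + 1)) ℂ := ![lin (c 0), lin (c 1), l₂] with hl
  have hlh : ∀ i, (l i).IsHomogeneous 1 := by
    intro i
    fin_cases i
    · exact lin_hom _
    · exact lin_hom _
    · exact hl₂
  have hrow : ∀ z : Fin (ν + 1) → ℂ, (fun i => eval z (l i)) =
      fun j => ∑ i, (![c 0, c 1, pt l₂] : Fin 3 → Fin (ν + 1) → ℂ) j i * z i := by
    intro z
    funext j
    fin_cases j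
    · exact eval_lin _ _
    · exact eval_lin _ _
    · exact eval_linear hl₂ z
  have hgT : aeval l g ∈ T := by
    rw [hT]
    refine ⟨⟨1 * D, hg.hom.aeval l hlh⟩, ?_⟩
    filter_upwards [hgU] with n hn
    rw [eval_aeval3, hrow]
    exact hn
  refine ⟨_, v, l, D, g, hv, hvT, hlh, fun z hz h0 h1 => hnoz z (hvT z hz) h0 h1, hg,
    fun z hz => ?_, fun z hz h => hsep z (hvT z hz) (h 0 1) (h 0 2) (h 1 2)⟩
  have h1 := hvT z hz _ hgT
  rwa [eval_aeval3] at h1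

/-- The forms vanishing along an ultrafilter: the return set of a closed set of dimension at most
one which contains a tame point. -/
theorem ap_vanK {d : ℕ} {f : Fin (ν + 1) → MvPolynomial (Fin (ν + 1)) ℂ} (hf : IsEndo d f)
    {a : Fin (ν + 1) → ℂ} (ha : a ≠ 0) {U : Ultrafilter ℕ}
    {T : Set (MvPolynomial (Fin (ν + 1)) ℂ)} (hT : T = vanK U fun n => iter f a n)
    {V : Set (MvPolynomial (Fin (ν + 1)) ℂ)} (hV : ∀ g ∈ V, ∃ e, g.IsHomogeneous e)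
    (hdim : ringKrullDim (MvPolynomial (Fin (ν + 1)) ℂ ⧸ Ideal.span V) ≤ 2)
    (hTV : ∀ x : Fin (ν + 1) → ℂ, (∀ g ∈ T, eval x g = 0) → ∀ g ∈ V, eval x g = 0)
    {p : Fin (ν + 1) → ℂ} (hp0 : p ≠ 0) (hpT : ∀ g ∈ T, eval p g = 0)
    {k : ℕ} {Z : ℕ → Set (MvPolynomial (Fin (ν + 1)) ℂ)} (hZ : ChainC f (jf f) k Z) {s : ℕ}
    (hs : ∀ g ∈ Z 0, eval (iter f p s) g = 0) :
    ∃ A, {n | ∀ g ∈ T, eval (iter f a n) g = 0} = APSet A := by
  classical
  have hTf : ∀ g ∈ T, ∃ e, g.IsHomogeneous e := by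
    rw [hT]
    exact fun g hg => hg.1
  -- normalisation of the point
  obtain ⟨i₀, hi₀⟩ := Function.ne_iff.1 hp0
  have hi₀ : p i₀ ≠ 0 := hi₀
  obtain ⟨p', hp1, hp'⟩ : ∃ p' : Fin (ν + 1) → ℂ, p' i₀ = 1 ∧ p' = (p i₀)⁻¹ • p :=
    ⟨_, by rw [Pi.smul_apply, smul_eq_mul, inv_mul_cancel₀ hi₀], rfl⟩
  have hp'0 : p' ≠ 0 := by
    intro h
    rw [h] at hp1
    exact zero_ne_one hp1
  have hp'T : ∀ g ∈ T, eval p' g = 0 := by
    intro g hg
    obtain ⟨e, he⟩ := hTf g hg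
    rw [hp', eval_smul_hom he, hpT g hg, mul_zero]
  have hp's : ∀ g ∈ Z 0, eval (iter f p' s) g = 0 := by
    intro g hg
    obtain ⟨e, he⟩ := hZ.form 0 (Nat.zero_le k) g hg
    rw [hp', iter_smul hf, eval_smul_hom he, hs g hg, mul_zero]
  obtain ⟨r, v, l, D, g, hv, hvT, hlh, hnoz, hg, hrel, hsep⟩ :=
    exists_sepdata hT hV hdim hTV hp'0 hp'T
  obtain ⟨A, hA⟩ := core hf ha (v := v) (fun j => hTf _ (hv j)) hlh hnoz hp1
    (fun j => hp'T _ (hv j)) hg hrel hsep hZ hp's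
  refine ⟨A, ?_⟩
  rw [← hA]
  ext n
  exact ⟨fun hn j => hn _ (hv j), fun hn => hvT _ hn⟩

/-- Every infinite closed subset of the common zeros of the forms vanishing along an ultrafilter
contains all of these zeros. -/
theorem mem_sub {x : ℕ → Fin (ν + 1) → ℂ} {U : Ultrafilter ℕ}
    {T : Set (MvPolynomial (Fin (ν + 1)) ℂ)} (hT : T = vanK U x)
    {V : Set (MvPolynomial (Fin (ν + 1)) ℂ)} (hV : ∀ g ∈ V, ∃ e, g.IsHomogeneous e)
    (hdim : ringKrullDim (MvPolynomial (Fin (ν + 1)) ℂ ⧸ Ideal.span V) ≤ 2)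
    (hTV : ∀ x : Fin (ν + 1) → ℂ, (∀ g ∈ T, eval x g = 0) → ∀ g ∈ V, eval x g = 0)
    {p : Fin (ν + 1) → ℂ} (hp0 : p ≠ 0) (hpT : ∀ g ∈ T, eval p g = 0)
    {T' : Set (MvPolynomial (Fin (ν + 1)) ℂ)} (hT' : ∀ g ∈ T', ∃ e : ℕ, g.IsHomogeneous e)
    (hT'T : ∀ x : Fin (ν + 1) → ℂ, (∀ g ∈ T', eval x g = 0) → ∀ g ∈ T, eval x g = 0)
    (y : ℕ → Fin (ν + 1) → ℂ) (hy0 : ∀ n, y n ≠ 0) (hyne : ∀ n m, n ≠ m → ¬ PEq (y n) (y m))
    (hyT : ∀ n, ∀ g ∈ T', eval (y n) g = 0) : ∀ g ∈ T', eval p g = 0 := by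
  have hTf : ∀ g ∈ T, ∃ e, g.IsHomogeneous e := by
    rw [hT]
    exact fun g hg => hg.1
  obtain ⟨r, v, l, D, g, hv, hvT, hlh, hnoz, hg, hrel, hsep⟩ :=
    exists_sepdata hT hV hdim hTV hp0 hpT
  choose e he using fun j => hTf _ (hv j)
  exact mem_of_infinite he hlh hnoz hg hrel hp0 (fun j => hpT _ (hv j)) hsep hT'
    (fun z hz j => hT'T z hz _ (hv j)) y hy0 hyne hyT

/-- **Closed sets of dimension at most one which contain enough tame points or preperiodic points,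
over the complex numbers.** -/
theorem partThree {d : ℕ} {f : Fin (ν + 1) → MvPolynomial (Fin (ν + 1)) ℂ} (hf : IsEndo d f)
    {a : Fin (ν + 1) → ℂ} (ha : a ≠ 0) {V : Set (MvPolynomial (Fin (ν + 1)) ℂ)}
    (hV : ∀ g ∈ V, ∃ e, g.IsHomogeneous e)
    (hdim : ringKrullDim (MvPolynomial (Fin (ν + 1)) ℂ ⧸ Ideal.span V) ≤ 2)
    (hmeet : ∀ T : Set (MvPolynomial (Fin (ν + 1)) ℂ), (∀ g ∈ T, ∃ e, g.IsHomogeneous e) →
      (∀ x : Fin (ν + 1) → ℂ, (∀ g ∈ T, eval x g = 0) → ∀ g ∈ V, eval x g = 0) →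
      (∃ p : ℕ → Fin (ν + 1) → ℂ, (∀ n, p n ≠ 0) ∧ (∀ n m, n ≠ m → ¬ PEq (p n) (p m)) ∧
        ∀ n, ∀ g ∈ T, eval (p n) g = 0) →
      (∃ p : Fin (ν + 1) → ℂ, p ≠ 0 ∧ (∀ g ∈ T, eval p g = 0) ∧
        ∃ (k : ℕ) (Z : ℕ → Set (MvPolynomial (Fin (ν + 1)) ℂ)), ChainC f (jf f) k Z ∧
          ∃ s : ℕ, ∀ g ∈ Z 0, eval (iter f p s) g = 0) ∨
      ((∀ i m, IsAlgebraic ℚ ((f i).coeff m)) ∧
        ∃ p : ℕ → Fin (ν + 1) → ℂ, (∀ n, p n ≠ 0) ∧ (∀ n m, n ≠ m → ¬ PEq (p n) (p m)) ∧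
          (∀ n, ∀ g ∈ T, eval (p n) g = 0) ∧
          ∀ n, ∃ s t, s < t ∧ PEq (iter f (p n) s) (iter f (p n) t))) :
    ∃ A : Finset (ℕ × ℕ), {n : ℕ | ∀ g ∈ V, eval ((fun (x : Fin (ν + 1) → ℂ)
        (i : Fin (ν + 1)) => eval x (f i))^[n] a) g = 0} =
      {n : ℕ | ∃ q ∈ A, ∃ m : ℕ, n = q.1 * m + q.2} := by
  classical
  -- the orbit of the point
  have horb : ∀ n, (fun (x : Fin (ν + 1) → ℂ) (i : Fin (ν + 1)) => eval x (f i))^[n] a =
      iter f a n := fun n => rfl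
  simp only [horb]
  have hne : ∀ n, iter f a n ≠ 0 := by
    intro n
    induction n with
    | zero => exact ha
    | succ n ih =>
      rw [iter_succ]
      intro h
      exact ih (hf.nz _ fun i => congrFun h i)
  -- the preperiodic case
  by_cases hprea : ∃ n m, n < m ∧ PEq (iter f a n) (iter f a m)
  · obtain ⟨n, m, hnm, hp⟩ := hprea
    have h1 : (fun i => map (algebraMap ℂ ℂ) (f i)) = f := by
      funext i
      rw [Algebra.algebraMap_self, MvPolynomial.map_id]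
    have h2 := Pool.Agent.Helper72.PN.MainN_preper (K := ℂ) (F := f) (d := d) (by
      rw [h1]
      exact hf) a hnm hp V hV
    exact h2
  refine union_of_ultra _ fun U hU hUV => ?_
  have hUV : ∀ᶠ n in (U : Filter ℕ), ∀ g ∈ V, eval (iter f a n) g = 0 := hUV
  -- the closure
  set T := vanK U fun n => iter f a n with hT
  have hTf : ∀ g ∈ T, ∃ e, g.IsHomogeneous e := fun g hg => hg.1
  have hTU : ∀ᶠ n in (U : Filter ℕ), ∀ g ∈ T, eval (iter f a n) g = 0 := vanK_mem U _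
  have hTV : ∀ x : Fin (ν + 1) → ℂ, (∀ g ∈ T, eval x g = 0) → ∀ g ∈ V, eval x g = 0 :=
    fun x hx g hg => hx g ⟨hV g hg, by
      filter_upwards [hUV] with n hn
      exact hn g hg⟩
  have hinf : {n | ∀ g ∈ T, eval (iter f a n) g = 0}.Infinite := by
    intro hfin
    obtain ⟨B, hB⟩ := hfin.bddAbove
    obtain ⟨n, hn1, hn2⟩ := (hTU.and (hU (B + 1))).exists
    have := hB hn1
    omega
  obtain ⟨φ, hφ⟩ : ∃ φ : ℕ → ℕ, Function.Injective φ ∧
      ∀ i, ∀ g ∈ T, eval (iter f a (φ i)) g = 0 := by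
    refine ⟨fun i => (hinf.natEmbedding _ i : ℕ), ?_, fun i => (hinf.natEmbedding _ i).2⟩
    intro i j hij
    exact (hinf.natEmbedding _).injective (Subtype.ext hij)
  suffices hap : ∃ A, {n | ∀ g ∈ T, eval (iter f a n) g = 0} = APSet A by
    obtain ⟨A, hA⟩ := hap
    have hAU : APSet A ∈ U := by
      rw [← hA]
      exact hTU
    obtain ⟨q, r, h1, h2⟩ := exists_ap hAU
    refine ⟨q, r, h1, h2.trans ?_⟩
    rw [← hA]
    exact fun n hn => hTV _ hn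
  rcases hmeet T hTf hTV ⟨fun i => iter f a (φ i), fun i => hne (φ i), fun i j hij h => by
        rcases lt_or_gt_of_ne fun h2 => hij (hφ.1 h2) with h2 | h2
        · exact hprea ⟨_, _, h2, h⟩
        · exact hprea ⟨_, _, h2, h.symm⟩,
      fun i g hg => hφ.2 i g hg⟩ with
    ⟨p, hp0, hpT, k, Z, hZ, s, hps⟩ | ⟨hfa, p, hp0, hpp, hpT, hpre⟩
  · exact ap_vanK hf ha hT hV hdim hTV hp0 hpT hZ hps
  · have hcurT : CurveSet T := fun K _ _ y U' hy =>
      curveSet_of_krull hV hdim K y U' (by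
        filter_upwards [hy] with n hn
        exact hTV _ hn)
    rcases Pool.Agent.Helper72.TH.alg_or_dml hf hfa ha with ⟨c, hc, haa⟩ | h
    swap
    · obtain ⟨A, hA⟩ := h T hTf hcurT
      exact ⟨A, hA⟩
    obtain ⟨A, hA⟩ := Pool.Agent.Helper72.TH.final3 hf hfa ha hc haa hTf hcurT
      (fun T' hT' hT'T ⟨y, hy0, hyne, hyT⟩ => Or.inr ⟨p, hp0, hpp, fun n =>
        mem_sub hT hV hdim hTV (hp0 n) (hpT n) hT' hT'T y hy0 hyne hyT, hpre⟩) hinf hTf
    exact ⟨A, hA⟩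

end Pool.Agent.Helper30.THD
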