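import Pool.Agent.Helper30.THD.Defs

/-!
# Project THD: irreducible plane curves specialise to irreducible curves at almost all places

Nullstellensatz certificate: for fixed `m₁ + m₂ = m` the equations `coeff (g₁ g₂) = coeff g` in the
unknown coefficients of `g₁`, `g₂` have no solution over `ℂ`; use `THC.incl_spec` (or
`THC.exists_cert`) with `Fin (μ + 1)` in bijection with the unknown coefficients and `1` in place
of the form which has to vanish.
-/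

set_option autoImplicit false

namespace Pool.Agent.Helper30.THD

open MvPolynomial
open Pool.Agent.Helper16 (Place IsFunctionField)
open Pool.Agent.Helper30.TKN
open Pool.Agent.Helper30.RED

/-- The exponents of degree `m`. -/
def NF_exps (m : ℕ) : Finset (Fin 3 →₀ ℕ) := Finset.finsuppAntidiag Finset.univ m

theorem NF_mem_exps {m : ℕ} {d : Fin 3 →₀ ℕ} : d ∈ NF_exps m ↔ d.degree = m := by
  unfold NF_exps
  rw [Finset.mem_finsuppAntidiag']
  constructor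
  · rintro ⟨h, -⟩
    rw [← h]
    rfl
  · intro h
    exact ⟨by rw [← h]; rfl, Finset.subset_univ _⟩

/-- The form with given coefficients. -/
noncomputable def NF_form {L : Type} [Field L] (m : ℕ) (u : (Fin 3 →₀ ℕ) → L) :
    MvPolynomial (Fin 3) L := ∑ d ∈ NF_exps m, monomial d (u d)

theorem NF_form_hom {L : Type} [Field L] (m : ℕ) (u : (Fin 3 →₀ ℕ) → L) :
    (NF_form m u).IsHomogeneous m := by
  refine IsHomogeneous.sum _ _ _ fun d hd => ?_
  exact isHomogeneous_monomial _ (NF_mem_exps.1 hd)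

theorem NF_form_coeff {L : Type} [Field L] {m : ℕ} {g : MvPolynomial (Fin 3) L}
    (hg : g.IsHomogeneous m) : NF_form m (fun d => g.coeff d) = g := by
  classical
  unfold NF_form
  ext d
  rw [coeff_sum]
  simp only [coeff_monomial]
  rw [Finset.sum_ite_eq' (NF_exps m) d fun d => g.coeff d]
  split_ifs with h
  · rfl
  · exact (hg.coeff_eq_zero fun h' => h (NF_mem_exps.2 h')).symm

/-- The coefficient of a product. -/
noncomputable def NF_cf {L : Type} [CommRing L] (m₁ m₂ : ℕ) (u v : (Fin 3 →₀ ℕ) → L)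
    (d : Fin 3 →₀ ℕ) : L :=
  ∑ a ∈ NF_exps m₁, ∑ b ∈ NF_exps m₂, if a + b = d then u a * v b else 0

theorem NF_cf_eq {L : Type} [Field L] (m₁ m₂ : ℕ) (u v : (Fin 3 →₀ ℕ) → L)
    (d : Fin 3 →₀ ℕ) : (NF_form m₁ u * NF_form m₂ v).coeff d = NF_cf m₁ m₂ u v d := by
  classical
  unfold NF_form NF_cf
  rw [Finset.sum_mul_sum, coeff_sum]
  refine Finset.sum_congr rfl fun a _ => ?_
  rw [coeff_sum]
  refine Finset.sum_congr rfl fun b _ => ?_
  rw [monomial_mul, coeff_monomial]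

theorem NF_cf_map {L L' : Type} [CommRing L] [CommRing L'] (φ : L →+* L') (m₁ m₂ : ℕ)
    (u v : (Fin 3 →₀ ℕ) → L) (d : Fin 3 →₀ ℕ) :
    φ (NF_cf m₁ m₂ u v d) = NF_cf m₁ m₂ (fun a => φ (u a)) (fun a => φ (v a)) d := by
  unfold NF_cf
  rw [map_sum]
  refine Finset.sum_congr rfl fun a _ => ?_
  rw [map_sum]
  refine Finset.sum_congr rfl fun b _ => ?_
  split_ifs with h
  · rw [map_mul]
  · rw [map_zero]

/-- A numbering of the unknown coefficients. -/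
theorem NF_num (m₁ m₂ : ℕ) : ∃ (μ : ℕ) (e₁ e₂ : (Fin 3 →₀ ℕ) → Fin (μ + 1)),
    ∀ (L : Type) (u v : (Fin 3 →₀ ℕ) → L), Nonempty L → ∃ z : Fin (μ + 1) → L,
      (∀ a ∈ NF_exps m₁, z (e₁ a) = u a) ∧ ∀ a ∈ NF_exps m₂, z (e₂ a) = v a := by
  classical
  set S : Finset (Bool × (Fin 3 →₀ ℕ)) :=
    Finset.univ ×ˢ (NF_exps m₁ ∪ NF_exps m₂) with hS
  obtain ⟨n, ⟨e⟩⟩ := Finite.exists_equiv_fin (S : Type)
  refine ⟨n, fun a => if h : (true, a) ∈ S then (e ⟨_, h⟩).castSucc else Fin.last n,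
    fun a => if h : (false, a) ∈ S then (e ⟨_, h⟩).castSucc else Fin.last n, ?_⟩
  rintro L u v ⟨l⟩
  refine ⟨fun i => if h : (i : ℕ) < n then
    (let s := (e.symm ⟨i, h⟩ : S).1; if s.1 = true then u s.2 else v s.2) else l, ?_, ?_⟩
  · intro a ha
    have h : (true, a) ∈ S := Finset.mem_product.2 ⟨Finset.mem_univ _, Finset.mem_union_left _ ha⟩
    simp only [dif_pos h, Fin.val_castSucc, Fin.is_lt, dif_pos, Fin.eta, Equiv.symm_apply_apply,
      if_true]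
  · intro a ha
    have h : (false, a) ∈ S :=
      Finset.mem_product.2 ⟨Finset.mem_univ _, Finset.mem_union_right _ ha⟩
    simp only [dif_pos h, Fin.val_castSucc, Fin.is_lt, dif_pos, Fin.eta, Equiv.symm_apply_apply,
      Bool.false_eq_true, if_false]

theorem NF_cf_congr {L : Type} [CommRing L] {m₁ m₂ : ℕ} {u v u' v' : (Fin 3 →₀ ℕ) → L}
    (hu : ∀ a ∈ NF_exps m₁, u a = u' a) (hv : ∀ a ∈ NF_exps m₂, v a = v' a)
    (d : Fin 3 →₀ ℕ) : NF_cf m₁ m₂ u v d = NF_cf m₁ m₂ u' v' d := by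
  unfold NF_cf
  refine Finset.sum_congr rfl fun a ha => Finset.sum_congr rfl fun b hb => ?_
  rw [hu a ha, hv b hb]

theorem NF_cf_red {k K : Type} [Field k] [Field K] [Algebra k K] {b : Place k K} {μ : ℕ}
    (m₁ m₂ : ℕ) (e₁ e₂ : (Fin 3 →₀ ℕ) → Fin (μ + 1)) (d : Fin 3 →₀ ℕ) :
    RedP b (NF_cf m₁ m₂ (fun a => X (e₁ a)) (fun a => X (e₂ a)) d)
      (NF_cf m₁ m₂ (fun a => X (e₁ a)) (fun a => X (e₂ a)) d) := by
  unfold NF_cf
  refine RedP.sum _ fun a _ => RedP.sum _ fun c _ => ?_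
  split_ifs with h
  · exact (redP_C_X b _).mul (redP_C_X b _)
  · exact redP_zero b

/-- The equations of a factorisation with degrees `m₁`, `m₂`. -/
theorem NF_pair {k K : Type} [Field k] [IsAlgClosed k] [Algebra k ℂ] [Field K] [Algebra k K]
    [Algebra K ℂ] (hK : IsFunctionField k K) {m : ℕ} {g : MvPolynomial (Fin 3) K}
    (h : NoFac m (map (algebraMap K ℂ) g)) (m₁ m₂ : ℕ) (hm : m₁ + m₂ = m) (h1 : 1 ≤ m₁)
    (h2 : 1 ≤ m₂) :
    ∃ A : Set (Place k K), A.Finite ∧ ∀ b ∉ A, ∀ γ : MvPolynomial (Fin 3) k,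
      RedP (ν := 2) b g γ → ∀ g₁ g₂ : MvPolynomial (Fin 3) ℂ, g₁.IsHomogeneous m₁ →
        g₂.IsHomogeneous m₂ → g₁ * g₂ ≠ map (algebraMap k ℂ) γ := by
  classical
  obtain ⟨μ, e₁, e₂, he⟩ := NF_num m₁ m₂
  -- the equations
  have key : ∀ z : Fin (μ + 1) → ℂ, (∀ d : NF_exps m, aeval z
      ((NF_cf m₁ m₂ (fun a => X (e₁ a)) (fun a => X (e₂ a)) d.1 - C (g.coeff d.1) :
        MvPolynomial (Fin (μ + 1)) K)) = 0) → aeval z (1 : MvPolynomial (Fin (μ + 1)) K) = 0 := by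
    intro z hz
    exfalso
    refine h.fac m₁ m₂ (NF_form m₁ fun a => z (e₁ a)) (NF_form m₂ fun a => z (e₂ a)) hm h1 h2
      (NF_form_hom _ _) (NF_form_hom _ _) ?_
    ext d
    by_cases hd : d ∈ NF_exps m
    · have h3 := hz ⟨d, hd⟩
      rw [map_sub, sub_eq_zero, aeval_C] at h3
      have h4 := NF_cf_map (aeval (R := K) z : MvPolynomial (Fin (μ + 1)) K →ₐ[K] ℂ).toRingHom
        m₁ m₂ (fun a => X (e₁ a)) (fun a => X (e₂ a)) d
      rw [NF_cf_eq, coeff_map, ← h3]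
      refine Eq.trans ?_ h4.symm
      refine NF_cf_congr (fun a _ => ?_) (fun a _ => ?_) d
      · exact (aeval_X z (e₁ a)).symm
      · exact (aeval_X z (e₂ a)).symm
    · have h5 : d.degree ≠ m := fun h' => hd (NF_mem_exps.2 h')
      rw [h.hom.coeff_eq_zero h5]
      exact (hm ▸ (NF_form_hom m₁ _).mul (NF_form_hom m₂ _)).coeff_eq_zero h5
  obtain ⟨A, hA, hA'⟩ := Pool.Agent.Helper30.THC.incl_spec (ν := μ) hK
    (κ := (NF_exps m : Type))
    (fun d => NF_cf m₁ m₂ (fun a => X (e₁ a)) (fun a => X (e₂ a)) d.1 - C (g.coeff d.1)) 1 key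
  refine ⟨A, hA, fun b hb γ hγ g₁ g₂ hg₁ hg₂ heq => ?_⟩
  obtain ⟨z, hz1, hz2⟩ := he ℂ (fun a => g₁.coeff a) (fun a => g₂.coeff a) ⟨0⟩
  have h6 := hA' b hb
    (fun d => NF_cf m₁ m₂ (fun a => X (e₁ a)) (fun a => X (e₂ a)) d.1 - C (γ.coeff d.1)) 1
    (fun d => by
      rw [sub_eq_add_neg, sub_eq_add_neg]
      exact RedP.add (NF_cf_red m₁ m₂ e₁ e₂ d.1) (RedP.neg (redP_C (hγ d.1)))) (redP_one b) z ?_
  · rw [map_one] at h6
    exact one_ne_zero h6
  · intro d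
    rw [map_sub, sub_eq_zero, aeval_C]
    have h4 := NF_cf_map (aeval (R := k) z : MvPolynomial (Fin (μ + 1)) k →ₐ[k] ℂ).toRingHom
      m₁ m₂ (fun a => X (e₁ a)) (fun a => X (e₂ a)) d.1
    refine Eq.trans h4 ?_
    rw [← coeff_map, ← heq, ← NF_form_coeff hg₁, ← NF_form_coeff hg₂, NF_cf_eq]
    refine NF_cf_congr (fun a ha => ?_) (fun a ha => ?_) d.1
    · exact (aeval_X z (e₁ a)).trans (hz1 a ha)
    · exact (aeval_X z (e₂ a)).trans (hz2 a ha)

/-- Irreducibility over `ℂ` of a form in three variables over a function field is inherited by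
almost all specialisations. -/
theorem nofac_spec {k K : Type} [Field k] [IsAlgClosed k] [Algebra k ℂ] [Field K] [Algebra k K]
    [Algebra K ℂ] (hK : IsFunctionField k K) {m : ℕ} {g : MvPolynomial (Fin 3) K}
    (h : NoFac m (map (algebraMap K ℂ) g)) :
    ∃ A : Set (Place k K), A.Finite ∧ ∀ b ∉ A, ∀ γ : MvPolynomial (Fin 3) k,
      RedP (ν := 2) b g γ → NoFac m (map (algebraMap k ℂ) γ) := by
  classical
  -- a nonzero coefficient
  have hg : g ≠ 0 := fun h0 => h.ne (by rw [h0, map_zero])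
  obtain ⟨d, hd⟩ := ne_zero_iff.1 hg
  obtain ⟨A₂, hA₂, h₂⟩ := Pool.Agent.Helper30.THC.all_places (k := k) (K := K)
    (ι := Fin (m + 1) × Fin (m + 1))
    (P := fun e b => (e.1 : ℕ) + e.2 = m → 1 ≤ (e.1 : ℕ) → 1 ≤ (e.2 : ℕ) →
      ∀ γ : MvPolynomial (Fin 3) k,
      RedP (ν := 2) b g γ → ∀ g₁ g₂ : MvPolynomial (Fin 3) ℂ, g₁.IsHomogeneous e.1 →
        g₂.IsHomogeneous e.2 → g₁ * g₂ ≠ map (algebraMap k ℂ) γ) (by
    intro e
    by_cases he : (e.1 : ℕ) + e.2 = m ∧ 1 ≤ (e.1 : ℕ) ∧ 1 ≤ (e.2 : ℕ)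
    · obtain ⟨A, hA, h'⟩ := NF_pair hK h e.1 e.2 he.1 he.2.1 he.2.2
      exact ⟨A, hA, fun b hb _ _ _ => h' b hb⟩
    · exact ⟨∅, Set.finite_empty, fun b _ a1 a2 a3 => absurd ⟨a1, a2, a3⟩ he⟩)
  refine ⟨{b : Place k K | ¬ ∀ n, b.val
    ((C (g.coeff d)⁻¹ : MvPolynomial (Fin (0 + 1)) K).coeff n) ≤ 1} ∪ A₂,
    (Good2_fin hK _).union hA₂, fun b hb γ hγ => ?_⟩
  rw [Set.mem_union, not_or] at hb
  obtain ⟨hb1, hb2⟩ := hb
  have hγh : γ.IsHomogeneous m := redP_hom (ν := 2) hγ (hom_of_map (ν := 2) _ h.hom)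
  refine ⟨hγh.map _, ?_, h.pos, ?_⟩
  · intro h0
    have h3 : γ = 0 := by
      refine MvPolynomial.map_injective _ (algebraMap k ℂ).injective ?_
      rw [h0, map_zero]
    have h4 := hγ d
    rw [h3, coeff_zero, map_zero, sub_zero] at h4
    have h5 := (not_not.1 hb1) 0
    rw [coeff_C, if_pos rfl] at h5
    have h6 : b.val (g.coeff d) * b.val (g.coeff d)⁻¹ = 1 := by
      rw [← map_mul, mul_inv_cancel₀ hd, map_one]
    have h7 : b.val (g.coeff d) * b.val (g.coeff d)⁻¹ < 1 :=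
      (mul_le_of_le_one_right' h5).trans_lt h4
    exact absurd h6 h7.ne
  · intro m₁ m₂ g₁ g₂ hm h1 h2 hg₁ hg₂
    exact h₂ b hb2 (⟨m₁, by omega⟩, ⟨m₂, by omega⟩) hm h1 h2 γ hγ g₁ g₂ hg₁ hg₂

end Pool.Agent.Helper30.THD
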