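import Pool.Agent.Helper30.THD.Spec3
import Pool.Agent.Helper30.THD.Alg3
import Pool.Agent.Helper30.RED.CurveN

/-!
# Project THD: the induction over the transcendence degree
-/

set_option autoImplicit false

namespace Pool.Agent.Helper30.THD

open MvPolynomial
open Pool.Agent.Helper16 (Place IsFunctionField)
open Pool.Agent.Helper36 (step iter iter_zero iter_succ iter_succ' iter_add iter_map APSet
  APSet_univ)
open Pool.Agent.Helper38.TQ
open Pool.Agent.Helper30.TKN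
open Pool.Agent.Helper30.RED
open Pool.Agent.Helper30.THC
open Pool.Agent.Helper33.GC (APSet_inter)
open Pool.Agent.Helper72.TH (Chain)

variable {ν : ℕ}

/-- The Dynamical Mordell-Lang property for the data. -/
theorem part3_data {d N r M n : ℕ} {V : Fin r → Fin N} {Λ : Fin 3 → Fin N} {G : Fin M → Fin N}
    {P : Fin N} {Z : Fin n → Fin N} {e : Fin r → ℕ} {u : Fin M → (Fin 3 →₀ ℕ)} {D s t : ℕ}
    {i₀ : Fin (ν + 1)} {δ : Fin n → ℕ} {S : ℕ → Finset (Fin n)}
    {f : Fin (ν + 1) → MvPolynomial (Fin (ν + 1)) ℂ}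
    {w : Fin N → MvPolynomial (Fin (ν + 1)) ℂ} {a : Fin (ν + 1) → ℂ}
    (hf : IsEndo d f) (hC : Cl3 V Λ G P Z e u D s t i₀ δ S f w) (ha : a ≠ 0) :
    ∃ A, {n | ∀ j, eval (iter f a n) (w (V j)) = 0} = APSet A := by
  refine inductN (d := d) V e (fun f w _ => Cl3 V Λ G P Z e u D s t i₀ δ S f w)
    (fun U => ∃ A, U = APSet A) APSet_univ ?_ ?_ ?_ ?_ f w a hf hC ha hC.homV
  · rintro _ _ ⟨A, rfl⟩ ⟨B, rfl⟩
    exact APSet_inter A B
  · intro k _ _ _ K hK F W x hF hC hx B hB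
    obtain ⟨A, hA, h⟩ := cl3_spec (d := d) K hK hC
    exact ⟨A, hA, fun b hb f w z hf hw _ => h b hb f w hf hw⟩
  · intro k _ _ _ K hK F W x hF hC hx hub hWh
    exact unbC ν d k K hK F x hF hx hub r (fun j => W (V j)) (fun j => ⟨_, hWh j⟩) (by
      refine curveSet_of_forms ?_ (hC.homL 0) (hC.homL 1) fun z hz h0 h1 =>
        hC.noz z (fun j => ?_) h0 h1
      · rintro g ⟨j, rfl⟩
        exact ⟨_, hC.homV j⟩
      · exact hz _ ⟨j, rfl⟩)
  · intro f w a hfa hwa haa hf hC ha _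
    exact cl3_alg hfa hwa haa hf hC ha

end Pool.Agent.Helper30.THD
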