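import Pool.Agent.Helper30.THD.Cl3

/-!
# Project THD: the class is closed under specialisation
-/

set_option autoImplicit false

namespace Pool.Agent.Helper30.THD

open MvPolynomial
open Pool.Agent.Helper16 (Place IsFunctionField)
open Pool.Agent.Helper36 (step iter iter_zero iter_succ iter_succ' iter_add iter_map)
open Pool.Agent.Helper38.TQ
open Pool.Agent.Helper30.TKN
open Pool.Agent.Helper30.RED
open Pool.Agent.Helper30.THC
open Pool.Agent.Helper72.TH (Chain)

variable {ν : ℕ}

/-- Iterates over a subfield. -/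
theorem iter_algebraMap {K : Type} [Field K] [Algebra K ℂ]
    (F : Fin (ν + 1) → MvPolynomial (Fin (ν + 1)) K) (x : Fin (ν + 1) → K) (s : ℕ) :
    iter (fun i => map (algebraMap K ℂ) (F i)) (fun i => algebraMap K ℂ (x i)) s =
      fun i => algebraMap K ℂ (iter F x s i) := by
  induction s with
  | zero => rfl
  | succ s ih =>
    rw [iter_succ, iter_succ, ih]
    funext i
    exact eval_algebraMap _ _

/-- The class is closed under specialisation. -/
theorem cl3_spec {d N r M n : ℕ} {V : Fin r → Fin N} {Λ : Fin 3 → Fin N} {G : Fin M → Fin N}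
    {P : Fin N} {Z : Fin n → Fin N} {e : Fin r → ℕ} {u : Fin M → (Fin 3 →₀ ℕ)} {D s t : ℕ}
    {i₀ : Fin (ν + 1)} {δ : Fin n → ℕ} {S : ℕ → Finset (Fin n)}
    {k : Type} [Field k] [IsAlgClosed k] [Algebra k ℂ] (K : IntermediateField k ℂ)
    (hK : IsFunctionField k K) {F : Fin (ν + 1) → MvPolynomial (Fin (ν + 1)) K}
    {W : Fin N → MvPolynomial (Fin (ν + 1)) K}
    (hC : Cl3 V Λ G P Z e u D s t i₀ δ S (fun i => map (algebraMap K ℂ) (F i))
      (fun j => map (algebraMap K ℂ) (W j))) :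
    ∃ A : Set (Place k K), A.Finite ∧ ∀ b ∉ A,
      ∀ (f : Fin (ν + 1) → MvPolynomial (Fin (ν + 1)) k)
        (w : Fin N → MvPolynomial (Fin (ν + 1)) k), GoodRed d b F f →
        (∀ j, RedP b (W j) (w j)) →
        Cl3 V Λ G P Z e u D s t i₀ δ S (fun i => map (algebraMap k ℂ) (f i))
          (fun j => map (algebraMap k ℂ) (w j)) := by
  classical
  -- the conditions over `K`
  have hnoz : ∀ z : Fin (ν + 1) → ℂ, (∀ j, aeval z (W (V j)) = 0) → aeval z (W (Λ 0)) = 0 →
      aeval z (W (Λ 1)) = 0 → z = 0 := by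
    intro z hz h0 h1
    refine hC.noz z (fun j => ?_) ?_ ?_
    · rw [eval_mapC]; exact hz j
    · rw [eval_mapC]; exact h0
    · rw [eval_mapC]; exact h1
  have hpt : pt (map (algebraMap K ℂ) (W P)) = fun i => algebraMap K ℂ (pt (W P) i) := pt_map _
  have hpV : ∀ j, eval (pt (W P)) (W (V j)) = 0 := by
    intro j
    have h1 := hC.pV j
    rw [hpt, eval_algebraMap, map_eq_zero] at h1
    exact h1
  have hp1 : pt (W P) i₀ = 1 := by
    have h1 := hC.p1
    rw [hpt] at h1
    exact (algebraMap K ℂ).injective (by rw [map_one]; exact h1)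
  have hrel : ∀ z : Fin (ν + 1) → ℂ, (∀ j, aeval z (W (V j)) = 0) →
      aeval z (aeval (fun i => W (Λ i)) (gg u fun j => W (G j))) = 0 := by
    intro z hz
    have h1 := hC.rel z (fun j => by rw [eval_mapC]; exact hz j)
    rw [gg_map, gg_eval] at h1
    exact h1
  have hsep : ∀ z : Fin (ν + 1) → ℂ, (∀ j, aeval z (W (V j)) = 0) →
      (∀ i i', aeval z (W (Λ i) * C (eval (pt (W P)) (W (Λ i'))) -
        W (Λ i') * C (eval (pt (W P)) (W (Λ i)))) = 0) →
      ∀ a b, aeval z (X a * C (pt (W P) b) - X b * C (pt (W P) a)) = 0 := by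
    intro z hz h a b
    have h1 := hC.sep z (fun j => by rw [eval_mapC]; exact hz j) (fun i i' => by
      have h2 := h i i'
      rw [map_sub, map_mul, map_mul, aeval_C, aeval_C, sub_eq_zero] at h2
      rw [hpt, eval_algebraMap, eval_algebraMap, eval_mapC, eval_mapC]
      exact h2) a b
    rw [hpt] at h1
    rw [map_sub, map_mul, map_mul, aeval_C, aeval_C, aeval_X, aeval_X, sub_eq_zero]
    exact h1
  have hirr : NoFac D (map (algebraMap K ℂ) (gg u fun j => W (G j))) := by
    rw [← gg_map]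
    exact hC.irr
  have hchain : Chain ℂ F (jf F) (fun j => W (Z j)) δ S t := by
    refine chain_map.1 ?_
    rw [← map_jf']
    exact hC.chain
  have htame : ∀ j ∈ S 0, eval (iter F (pt (W P)) s) (W (Z j)) = 0 := by
    intro j hj
    have h1 := hC.tame j hj
    have h2 : iter (fun i => map (algebraMap K ℂ) (F i)) (pt (map (algebraMap K ℂ) (W P))) s =
        fun i => algebraMap K ℂ (iter F (pt (W P)) s i) := by
      rw [hpt]
      exact iter_algebraMap F _ s
    rw [h2, eval_algebraMap, map_eq_zero] at h1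
    exact h1
  -- the finite sets of places
  obtain ⟨A₁, hA₁, h₁⟩ := all_places (k := k) (K := K) (ι := Fin (ν + 1))
    (P := fun i b => ∀ (h : Fin r ⊕ Fin 2 → MvPolynomial (Fin (ν + 1)) k)
      (γ : MvPolynomial (Fin (ν + 1)) k),
      (∀ j : Fin r ⊕ Fin 2, RedP b (Sum.elim (fun j => W (V j)) (fun c => W (Λ c.castSucc)) j)
        (h j)) → RedP b (X i) γ →
      ∀ z : Fin (ν + 1) → ℂ, (∀ j, aeval z (h j) = 0) → aeval z γ = 0) (by
    intro i
    obtain ⟨A, hA, h⟩ := incl_spec hK (κ := Fin r ⊕ Fin 2)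
      (Sum.elim (fun j => W (V j)) (fun c => W (Λ c.castSucc))) (X i) (fun z hz => by
        rw [hnoz z (fun j => hz (Sum.inl j)) (hz (Sum.inr 0)) (hz (Sum.inr 1)), aeval_X,
          Pi.zero_apply])
    exact ⟨A, hA, h⟩)
  obtain ⟨A₂, hA₂, h₂⟩ := incl_spec hK (κ := Fin r) (fun j => W (V j))
    (aeval (fun i => W (Λ i)) (gg u fun j => W (G j))) hrel
  obtain ⟨A₃, hA₃, h₃⟩ := all_places (k := k) (K := K) (ι := Fin (ν + 1) × Fin (ν + 1))
    (P := fun c b => ∀ (h : Fin r ⊕ (Fin 3 × Fin 3) → MvPolynomial (Fin (ν + 1)) k)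
      (γ : MvPolynomial (Fin (ν + 1)) k),
      (∀ j : Fin r ⊕ (Fin 3 × Fin 3), RedP b (Sum.elim (fun j => W (V j))
        (fun q => W (Λ q.1) * C (eval (pt (W P)) (W (Λ q.2))) -
          W (Λ q.2) * C (eval (pt (W P)) (W (Λ q.1)))) j) (h j)) →
      RedP b (X c.1 * C (pt (W P) c.2) - X c.2 * C (pt (W P) c.1)) γ →
      ∀ z : Fin (ν + 1) → ℂ, (∀ j, aeval z (h j) = 0) → aeval z γ = 0) (by
    intro c
    obtain ⟨A, hA, h⟩ := incl_spec hK (κ := Fin r ⊕ (Fin 3 × Fin 3)) (Sum.elim (fun j => W (V j))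
        (fun q => W (Λ q.1) * C (eval (pt (W P)) (W (Λ q.2))) -
          W (Λ q.2) * C (eval (pt (W P)) (W (Λ q.1)))))
      (X c.1 * C (pt (W P) c.2) - X c.2 * C (pt (W P) c.1)) (fun z hz =>
        hsep z (fun j => hz (Sum.inl j)) (fun i i' => hz (Sum.inr (i, i'))) c.1 c.2)
    exact ⟨A, hA, h⟩)
  obtain ⟨A₄, hA₄, h₄⟩ := nofac_spec hK hirr
  obtain ⟨A₅, hA₅, h₅⟩ := chain_spec hK hchain
  refine ⟨A₁ ∪ (A₂ ∪ (A₃ ∪ (A₄ ∪ A₅))), hA₁.union (hA₂.union (hA₃.union (hA₄.union hA₅))),
    fun b hb f w hf hw => ?_⟩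
  simp only [Set.mem_union, not_or] at hb
  obtain ⟨hb1, hb2, hb3, hb4, hb5⟩ := hb
  have hptr : ∀ i, b.val (pt (W P) i - algebraMap k K (pt (w P) i)) < 1 := fun i => hw P _
  have hptk : pt (map (algebraMap k ℂ) (w P)) = fun i => algebraMap k ℂ (pt (w P) i) := pt_map _
  have h0k : ∀ (Q : MvPolynomial (Fin (ν + 1)) K) (q : MvPolynomial (Fin (ν + 1)) k)
      (x : Fin (ν + 1) → K) (z : Fin (ν + 1) → k), RedP b Q q →
      (∀ i, b.val (x i - algebraMap k K (z i)) < 1) → eval x Q = 0 → eval z q = 0 := by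
    intro Q q x z hQ hx h0
    have h1 := hQ.eval hx
    rw [h0] at h1
    refine (red_unique h1 ?_).trans rfl
    rw [map_zero, sub_zero, map_zero]
    exact zero_lt_one
  refine ⟨fun j => (redP_hom (hw _) (hom_of_map (algebraMap K ℂ) (hC.homV j))).map _,
    fun i => (redP_hom (hw _) (hom_of_map (algebraMap K ℂ) (hC.homL i))).map _, ?_, ?_, ?_, ?_,
    ?_, ?_, ?_, ?_⟩
  · intro z hz h0 h1
    funext i
    have h2 := h₁ b hb1 i (Sum.elim (fun j => w (V j)) (fun c => w (Λ c.castSucc))) (X i) (by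
      rintro (j | c)
      · exact hw _
      · exact hw _) (redP_C_X b i) z (by
      rintro (j | c)
      · show aeval z (w (V j)) = 0
        rw [← eval_mapC]
        exact hz j
      · show aeval z (w (Λ c.castSucc)) = 0
        rw [← eval_mapC]
        fin_cases c
        · exact h0
        · exact h1)
    rw [aeval_X] at h2
    exact h2
  · intro j
    rw [hptk, eval_algebraMap, map_eq_zero]
    exact h0k _ _ _ _ (hw _) hptr (hpV j)
  · rw [hptk]
    have h1 := hptr i₀
    rw [hp1] at h1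
    have h2 : pt (w P) i₀ = 1 := red_unique h1 (by
      rw [map_one, sub_self, map_zero]
      exact zero_lt_one)
    show algebraMap k ℂ (pt (w P) i₀) = 1
    rw [h2, map_one]
  · intro z hz
    rw [gg_map, gg_eval]
    refine h₂ b hb2 (fun j => w (V j)) _ (fun j => hw _)
      (gg_aeval_red u (fun j => hw _) fun i => hw _) z fun j => ?_
    rw [← eval_mapC]
    exact hz j
  · intro z hz hzz a c
    have h2 := h₃ b hb3 (a, c) (Sum.elim (fun j => w (V j))
        (fun q => w (Λ q.1) * C (eval (pt (w P)) (w (Λ q.2))) -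
          w (Λ q.2) * C (eval (pt (w P)) (w (Λ q.1)))))
      (X a * C (pt (w P) c) - X c * C (pt (w P) a)) (by
      rintro (j | q)
      · exact hw _
      · exact RedP.sub' ((hw _).mul (redP_C ((hw _).eval hptr)))
          ((hw _).mul (redP_C ((hw _).eval hptr)))) (by
      exact RedP.sub' ((redP_C_X b a).mul (redP_C (hptr c))) ((redP_C_X b c).mul (redP_C (hptr a))))
      z (by
      rintro (j | q)
      · show aeval z (w (V j)) = 0
        rw [← eval_mapC]
        exact hz j
      · show aeval z (w (Λ q.1) * C (eval (pt (w P)) (w (Λ q.2))) -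
          w (Λ q.2) * C (eval (pt (w P)) (w (Λ q.1)))) = 0
        have h3 := hzz q.1 q.2
        rw [hptk, eval_algebraMap, eval_algebraMap, eval_mapC, eval_mapC] at h3
        rw [map_sub, map_mul, map_mul, aeval_C, aeval_C, sub_eq_zero]
        exact h3)
    rw [hptk]
    rw [map_sub, map_mul, map_mul, aeval_C, aeval_C, aeval_X, aeval_X, sub_eq_zero] at h2
    exact h2
  · rw [gg_map]
    exact h₄ b hb4 _ (gg_red u fun j => hw _)
  · have h6 := h₅ b hb5 f (jf f) (fun j => w (Z j)) hf.red (redP_jf hf.red) fun j => hw _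
    have h7 := chain_map.2 h6
    rw [← map_jf'] at h7
    exact h7
  · intro j hj
    rw [hptk, iter_algebraMap, eval_algebraMap, map_eq_zero]
    exact h0k _ _ _ _ (hw _) (iter_red hf.red hptr s) (htame j hj)

end Pool.Agent.Helper30.THD
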